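import Pool.Agent.Helper97.LE.Data

/-!
# The choice of the parameters
-/

set_option autoImplicit false

namespace Pool.Agent.Helper97.LD

open MeasureTheory ProbabilityTheory Filter
open scoped ENNReal NNReal Topology

/-- The rate of the large atoms of index `j`. -/
noncomputable def rr (j : ℕ) : ℝ := (1 / 8) ^ (j + 1)

theorem rr_pos (j : ℕ) : 0 < rr j := by unfold rr; positivity

/-- A lower bound for the probability that there is a large atom of index at least `j`. -/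
noncomputable def rho (j : ℕ) : ℝ := 1 - Real.exp (-rr j)

theorem rho_pos (j : ℕ) : 0 < rho j := by
  unfold rho
  have : Real.exp (-rr j) < 1 := Real.exp_lt_one_iff.2 (by linarith [rr_pos j])
  linarith

theorem rho_lt (j : ℕ) : rho j < 1 := by
  unfold rho
  linarith [Real.exp_pos (-rr j)]

/-- The tolerance. -/
noncomputable def eta (j : ℕ) : ℝ := (1 / 16) ^ j

theorem eta_pos (j : ℕ) : 0 < eta j := by unfold eta; positivity

theorem eta_le_one (j : ℕ) : eta j ≤ 1 := by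
  unfold eta
  exact pow_le_one₀ (by norm_num) (by norm_num)

/-- The conditions for the parameters of index `j`. -/
def Step (p : ℕ → ℕ × ℕ) (j : ℕ) (v : ℕ × ℕ) : Prop :=
  Ok v ∧ 16 ^ j ≤ v.1 ∧
  (∀ i < j, 2 * (p i).1 ≤ v.1 ∧ (p i).1 ^ 2 * 9 ^ (j + 5) ≤ v.1 ∧ (p i).2 ≤ v.2) ∧
  ∃ N K M : ℕ, K ≤ M ∧ Real.exp (-rr j) ^ N ≤ eta j * rho j ∧
    ∑ n ∈ Finset.range N, iter (CT p j) (n + 1) {g | nb g (K + 1) ≤ 2} ≤
      ENNReal.ofReal (eta j) ∧
    ∫⁻ b, ((nb b (K + 1) : ℕ) : ℝ≥0∞)⁻¹ ∂(CT p j) ≤ ENNReal.ofReal (eta j) ∧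
    ((K : ℝ) + 1) ^ 2 * 2 * ((N : ℝ) + 1) ^ 2 ≤ eta j * v.1 ∧
    (1 - 1 / (v.1 : ℝ)) ^ (M + 1) ≤ eta j ∧
    2 * (((M : ℝ) + 1) / v.2) ≤ eta j * rho j

theorem step_congr (p p' : ℕ → ℕ × ℕ) (j : ℕ) (v : ℕ × ℕ) (h : ∀ i < j, p i = p' i)
    (hs : Step p j v) : Step p' j v := by
  obtain ⟨h1, h2, h3, h4⟩ := hs
  refine ⟨h1, h2, fun i hi => ?_, ?_⟩
  · rw [← h i hi]; exact h3 i hi
  · rw [← CT_congr h]; exact h4

theorem exists_step (p : ℕ → ℕ × ℕ) (j : ℕ) (h : ∀ i < j, Step p i (p i)) :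
    ∃ v, Step p j v := by
  have hOk : ∀ i < j, Ok (p i) := fun i hi => (h i hi).1
  have hη := eta_pos j
  have hρ := rho_pos j
  obtain ⟨N, hN⟩ : ∃ N : ℕ, Real.exp (-rr j) ^ N ≤ eta j * rho j := by
    have t := tendsto_pow_atTop_nhds_zero_of_lt_one (Real.exp_pos (-rr j)).le
      (Real.exp_lt_one_iff.2 (by linarith [rr_pos j]))
    exact (t.eventually (ge_mem_nhds (by positivity))).exists
  obtain ⟨K, hK1, hK2⟩ := exists_low hOk N (η := ENNReal.ofReal (eta j)) (by simpa using hη)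
  obtain ⟨a, ha⟩ := exists_nat_ge (((K : ℝ) + 1) ^ 2 * 2 * ((N : ℝ) + 1) ^ 2 / eta j)
  set A : ℕ := 3 + 16 ^ j + a +
    ∑ i ∈ Finset.range j, (2 * (p i).1 + (p i).1 ^ 2 * 9 ^ (j + 5)) with hA
  have h16 : 1 ≤ 16 ^ j := Nat.one_le_pow _ _ (by norm_num)
  have hA3 : 3 ≤ A := by rw [hA]; omega
  have hA3' : (3 : ℝ) ≤ A := by exact_mod_cast hA3
  have hAa : (a : ℝ) ≤ A := by
    have : a ≤ A := by rw [hA]; omega
    exact_mod_cast this
  obtain ⟨M, hKM, hM⟩ : ∃ M, K ≤ M ∧ (1 - 1 / (A : ℝ)) ^ (M + 1) ≤ eta j := by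
    have h0 : 0 < 1 / (A : ℝ) := by positivity
    have h1 : 1 / (A : ℝ) ≤ 1 := by
      rw [div_le_one (by positivity)]; linarith
    have t := (tendsto_pow_atTop_nhds_zero_of_lt_one (r := 1 - 1 / (A : ℝ)) (by linarith)
      (by linarith)).comp (tendsto_add_atTop_nat 1)
    obtain ⟨M, hM1, hM2⟩ := ((t.eventually (ge_mem_nhds hη)).and (eventually_ge_atTop K)).exists
    exact ⟨M, hM2, hM1⟩
  obtain ⟨b, hb⟩ := exists_nat_ge (2 * ((M : ℝ) + 1) / (eta j * rho j))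
  set B : ℕ := 2 + b + ∑ i ∈ Finset.range j, (p i).2 with hB
  have hB2 : (2 : ℝ) ≤ B := by
    have : 2 ≤ B := by rw [hB]; omega
    exact_mod_cast this
  have hBb : (b : ℝ) ≤ B := by
    have : b ≤ B := by rw [hB]; omega
    exact_mod_cast this
  refine ⟨(A, B), ⟨hA3, by show 2 ≤ B; rw [hB]; omega⟩, by show 16 ^ j ≤ A; rw [hA]; omega,
    fun i hi => ?_, N, K, M, hKM, hN, hK1, hK2, ?_, hM, ?_⟩
  · have h1 := Finset.single_le_sum (f := fun i => 2 * (p i).1 + (p i).1 ^ 2 * 9 ^ (j + 5))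
      (fun _ _ => Nat.zero_le _) (Finset.mem_range.2 hi)
    have h2 := Finset.single_le_sum (f := fun i => (p i).2)
      (fun _ _ => Nat.zero_le _) (Finset.mem_range.2 hi)
    refine ⟨?_, ?_, ?_⟩
    · show 2 * (p i).1 ≤ A
      rw [hA]; omega
    · show (p i).1 ^ 2 * 9 ^ (j + 5) ≤ A
      rw [hA]; omega
    · show (p i).2 ≤ B
      rw [hB]; omega
  · show ((K : ℝ) + 1) ^ 2 * 2 * ((N : ℝ) + 1) ^ 2 ≤ eta j * A
    rw [div_le_iff₀ hη] at ha
    calc ((K : ℝ) + 1) ^ 2 * 2 * ((N : ℝ) + 1) ^ 2 ≤ a * eta j := ha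
      _ ≤ A * eta j := by gcongr
      _ = eta j * A := mul_comm _ _
  · show 2 * (((M : ℝ) + 1) / B) ≤ eta j * rho j
    rw [div_le_iff₀ (by positivity)] at hb
    rw [← mul_div_assoc, div_le_iff₀ (by linarith)]
    calc 2 * ((M : ℝ) + 1) ≤ b * (eta j * rho j) := hb
      _ ≤ B * (eta j * rho j) := by gcongr
      _ = _ := mul_comm _ _

theorem exists_params : ∃ p : ℕ → ℕ × ℕ, ∀ j, Step p j (p j) :=
  exists_rec Step step_congr exists_step

/-! ### The numerical inequality -/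

theorem num_real {a x ε ρ : ℝ} {N : ℕ} (ha : 0 ≤ a) (hax : a ≤ x) (hρ : 0 < ρ) (hx : x ≤ 1 - ρ)
    (hε0 : 0 ≤ ε) (hε : ε ≤ 1 / 2) {η : ℝ} (h1 : 2 * ε ≤ η * ρ) (h2 : x ^ N ≤ η * ρ) :
    a / ((1 - a) * (1 - ε)) ≤ ∑ n ∈ Finset.range N, a ^ (n + 1) + 2 * η := by
  have h1a : ρ ≤ 1 - a := by linarith
  have h1a0 : 0 < 1 - a := by linarith
  have hsum : ∑ n ∈ Finset.range N, a ^ (n + 1) = a * (1 - a ^ N) / (1 - a) := by
    have h3 : ∑ n ∈ Finset.range N, a ^ (n + 1) = a * ∑ n ∈ Finset.range N, a ^ n := by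
      rw [Finset.mul_sum]
      exact Finset.sum_congr rfl fun n _ => by ring
    rw [h3, geom_sum_eq (by linarith)]
    have h4 : a - 1 ≠ 0 := by linarith
    field_simp
    ring
  rw [hsum]
  have haN : a ^ N ≤ x ^ N := pow_le_pow_left₀ ha hax N
  have haN0 : 0 ≤ a ^ N := by positivity
  have hinv : 1 / (1 - ε) ≤ 1 + 2 * ε := by
    rw [div_le_iff₀ (by linarith)]
    nlinarith
  have h5 : a / ((1 - a) * (1 - ε)) = a / (1 - a) * (1 / (1 - ε)) := by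
    have : 1 - ε ≠ 0 := by linarith
    field_simp
  have h6 : a * (1 - a ^ N) / (1 - a) = a / (1 - a) * (1 - a ^ N) := by ring
  rw [h5, h6]
  have h7 : 0 ≤ a / (1 - a) := by positivity
  have h8 : a / (1 - a) ≤ 1 / ρ := by
    apply div_le_div₀ (by norm_num) (by linarith) hρ h1a
  calc a / (1 - a) * (1 / (1 - ε)) ≤ a / (1 - a) * (1 + 2 * ε) := by gcongr
    _ = a / (1 - a) * (1 - a ^ N) + a / (1 - a) * (2 * ε + a ^ N) := by ring
    _ ≤ a / (1 - a) * (1 - a ^ N) + 1 / ρ * (2 * ε + a ^ N) := by gcongr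
    _ ≤ a / (1 - a) * (1 - a ^ N) + 1 / ρ * (η * ρ + η * ρ) := by gcongr; linarith
    _ = _ := by field_simp; ring

theorem num_ennreal {s π : ℝ≥0∞} {x ε ρ η : ℝ} {N : ℕ} (hs : s ≤ ENNReal.ofReal x) (hx0 : 0 ≤ x)
    (hρ : 0 < ρ) (hx : x ≤ 1 - ρ) (hε0 : 0 ≤ ε) (hε : ε ≤ 1 / 2) (h1 : 2 * ε ≤ η * ρ)
    (h2 : x ^ N ≤ η * ρ) (hπ : (1 - s) * ENNReal.ofReal (1 - ε) ≤ π) :
    π⁻¹ * s ≤ ∑ n ∈ Finset.range N, s ^ (n + 1) + ENNReal.ofReal (2 * η) := by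
  have hsf : s ≠ ∞ := ne_top_of_le_ne_top ENNReal.ofReal_ne_top hs
  obtain ⟨a, ha0, rfl⟩ : ∃ a : ℝ, 0 ≤ a ∧ s = ENNReal.ofReal a :=
    ⟨s.toReal, ENNReal.toReal_nonneg, (ENNReal.ofReal_toReal hsf).symm⟩
  have hax : a ≤ x := (ENNReal.ofReal_le_ofReal_iff hx0).1 hs
  have hη : 0 ≤ η := by
    by_contra hneg
    push Not at hneg
    have : η * ρ < 0 := mul_neg_of_neg_of_pos hneg hρ
    have h3 : 0 ≤ x ^ N := by positivity
    linarith
  have e1 : (1 - ENNReal.ofReal a) * ENNReal.ofReal (1 - ε) =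
      ENNReal.ofReal ((1 - a) * (1 - ε)) := by
    rw [ENNReal.ofReal_mul (by linarith), ENNReal.ofReal_sub 1 ha0, ENNReal.ofReal_one]
  rw [e1] at hπ
  have hpos : 0 < (1 - a) * (1 - ε) := mul_pos (by linarith) (by linarith)
  have h3 : π⁻¹ ≤ ENNReal.ofReal (((1 - a) * (1 - ε))⁻¹) := by
    rw [ENNReal.ofReal_inv_of_pos hpos]
    exact ENNReal.inv_le_inv.2 hπ
  calc π⁻¹ * ENNReal.ofReal a ≤ ENNReal.ofReal (((1 - a) * (1 - ε))⁻¹) * ENNReal.ofReal a := by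
        gcongr
    _ = ENNReal.ofReal (a / ((1 - a) * (1 - ε))) := by
        rw [← ENNReal.ofReal_mul (by positivity)]
        congr 1
        rw [div_eq_mul_inv, mul_comm]
    _ ≤ ENNReal.ofReal (∑ n ∈ Finset.range N, a ^ (n + 1) + 2 * η) :=
        ENNReal.ofReal_le_ofReal (num_real ha0 hax hρ hx hε0 hε h1 h2)
    _ = _ := by
        rw [ENNReal.ofReal_add (Finset.sum_nonneg fun n _ => by positivity) (by linarith),
          ENNReal.ofReal_sum_of_nonneg fun n _ => by positivity]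
        congr 1
        exact Finset.sum_congr rfl fun n _ => ENNReal.ofReal_pow ha0 _

end Pool.Agent.Helper97.LD
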