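import Pool.Agent.Helper97.LE.Fine

/-!
# Forgetting the kinds of atoms with a large number
-/

set_option autoImplicit false

namespace Pool.Agent.Helper97.LD

open MeasureTheory ProbabilityTheory Filter
open scoped ENNReal NNReal Topology

/-! ### Deleting atoms from a list -/

theorem comps_del (s : Name → ℝ) (p : Name → Prop) [DecidablePred p] (y : ℕ) (l : List Name) :
    ∀ φ : (ℕ → ℕ) → ℝ≥0∞, (∀ g g', (∀ x < y + 1, g x = g' x) → φ g = φ g') → (∀ g, φ g ≤ 1) →
      ∫⁻ b, φ b ∂(comps (l.map s)) ≤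
        ∫⁻ b, φ b ∂(comps ((l.filter fun a => decide (p a)).map s)) +
        ((l.filter fun a => decide (¬ p a)).map fun a => 1 - hid y (s a)).sum := by
  induction l with
  | nil => intro φ _ _; simp
  | cons a l ih =>
    intro φ hφ hφ1
    have hm : Measurable φ := measurable_of_dep (y + 1) φ hφ
    by_cases hp : p a
    · rw [List.filter_cons_of_pos (by simpa using hp), List.filter_cons_of_neg (by simpa using hp)]
      simp only [List.map_cons, comps]
      rw [lintegral_cmp _ _ hm, lintegral_cmp _ _ hm]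
      have h1 : ∀ g : ℕ → ℕ, ∫⁻ b, φ (g ∘ b) ∂(comps (l.map s)) ≤
          ∫⁻ b, φ (g ∘ b) ∂(comps ((l.filter fun a => decide (p a)).map s)) +
          ((l.filter fun a => decide (¬ p a)).map fun a => 1 - hid y (s a)).sum := by
        intro g
        refine ih (fun b => φ (g ∘ b)) (fun b b' hb => hφ _ _ fun x hx => ?_) fun b => hφ1 _
        simp only [Function.comp_apply, hb x hx]
      refine (lintegral_mono h1).trans ?_
      rw [lintegral_add_right _ measurable_const, lintegral_const, measure_univ, mul_one]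
    · rw [List.filter_cons_of_neg (by simpa using hp), List.filter_cons_of_pos (by simpa using hp)]
      simp only [List.map_cons, comps, List.sum_cons]
      rw [lintegral_cmp' _ _ hm]
      have h1 : ∀ᵐ b ∂(comps (l.map s)), ∫⁻ g, φ (g ∘ b) ∂(atom (s a)) ≤
          φ b + (1 - hid y (s a)) := by
        filter_upwards [(comps_nice (l.map s)).seg] with b hb
        have h2 : ∀ g : ℕ → ℕ, φ (g ∘ b) ≤ φ b +
            {g : ℕ → ℕ | ∀ j ≤ y, g j = j}ᶜ.indicator (fun _ => (1 : ℝ≥0∞)) g := by
          intro g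
          by_cases hg : ∀ j ≤ y, g j = j
          · refine le_trans (le_of_eq ?_) le_self_add
            refine hφ _ _ fun x hx => ?_
            have h3 : b x ≤ x := (hb.le_nb x).trans (hb.nb_le x)
            exact hg (b x) (by omega)
          · rw [Set.indicator_of_mem (show g ∈ {g : ℕ → ℕ | ∀ j ≤ y, g j = j}ᶜ from hg)]
            exact (hφ1 _).trans le_add_self
        refine (lintegral_mono h2).trans ?_
        rw [lintegral_add_left measurable_const, lintegral_const, measure_univ, mul_one,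
          lintegral_indicator_const (meas_idOn y).compl, one_mul,
          prob_compl_eq_one_sub (meas_idOn y)]
        rfl
      refine (lintegral_mono_ae h1).trans ?_
      rw [lintegral_add_right _ measurable_const, lintegral_const, measure_univ, mul_one]
      calc ∫⁻ b, φ b ∂(comps (l.map s)) + (1 - hid y (s a))
          ≤ (∫⁻ b, φ b ∂(comps ((l.filter fun a => decide (p a)).map s)) +
            ((l.filter fun a => decide (¬ p a)).map fun a => 1 - hid y (s a)).sum) +
            (1 - hid y (s a)) := by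
            gcongr
            exact ih φ hφ hφ1
        _ = _ := by rw [add_assoc, add_comm (List.sum _)]

theorem list_sum_le_asum {e : Env} (h : ℝ → ℝ≥0∞) {l : List Name} (hl : l.Nodup)
    (hp : ∀ a ∈ l, present e a) : (l.map fun a => h (e.2.2 a)).sum ≤ asum h e := by
  classical
  rw [← List.sum_toFinset _ hl]
  unfold asum
  refine le_trans (le_of_eq ?_) (ENNReal.sum_le_tsum l.toFinset)
  refine Finset.sum_congr rfl fun a ha => ?_
  have hp' : present e a := hp a (List.mem_toFinset.1 ha)
  rw [Set.indicator_of_mem (show e ∈ {e : Env | present e a} from hp')]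

/-! ### The truncated data -/

/-- Forget the kinds from `J` on. -/
noncomputable def cutE (J : ℕ) (e : Env) : Env :=
  (fun k => if k < J then e.1 k else 0, e.2.1, fun a => if a.1 < J then e.2.2 a else 1 / 2)

/-- The rates of the kinds smaller than `J`. -/
noncomputable def cc (c : ℕ → ℝ≥0) (J : ℕ) : ℕ → ℝ≥0 := fun k => if k < J then c k else 0

/-- The laws of the kinds smaller than `J`. -/
noncomputable def kk (κ : ℕ → Measure ℝ) (J : ℕ) : ℕ → Measure ℝ :=
  fun k => if k < J then κ k else Measure.dirac (1 / 2)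

theorem poisson_zero : poissonMeasure 0 = Measure.dirac 0 := by
  refine Measure.ext_iff_singleton.2 fun n => ?_
  rw [poissonMeasure_singleton, Measure.dirac_apply' _ (measurableSet_singleton n)]
  rcases Nat.eq_zero_or_pos n with h | h
  · subst h; simp
  · rw [Set.indicator_of_notMem (by simp; omega)]
    simp [h.ne']

variable {c : ℕ → ℝ≥0} {κ : ℕ → Measure ℝ}

theorem measurable_cutE (J : ℕ) : Measurable (cutE J) := by
  unfold cutE
  refine Measurable.prodMk ?_ (Measurable.prodMk (measurable_fst.comp measurable_snd) ?_)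
  · refine measurable_pi_iff.2 fun k => ?_
    by_cases h : k < J
    · simp only [h, if_true]
      exact (measurable_pi_apply k).comp measurable_fst
    · simp only [h, if_false]; exact measurable_const
  · refine measurable_pi_iff.2 fun a => ?_
    by_cases h : a.1 < J
    · simp only [h, if_true]
      exact (measurable_pi_apply a).comp (measurable_snd.comp measurable_snd)
    · simp only [h, if_false]; exact measurable_const

theorem map_cutE (hκ : ∀ k, IsProbabilityMeasure (κ k)) (J : ℕ) :
    (envLaw c κ).map (cutE J) = envLaw (cc c J) (kk κ J) := by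
  have := hκ
  let F : ∀ k : ℕ, ℕ → ℕ := fun k => if k < J then id else fun _ => 0
  let G : ∀ a : Name, ℝ → ℝ := fun a => if a.1 < J then id else fun _ => 1 / 2
  have hG : ∀ a, Measurable (G a) := by
    intro a
    simp only [G]
    split_ifs
    · exact measurable_id
    · exact measurable_const
  have e1 : cutE J = Prod.map (fun x k => F k (x k)) (Prod.map id fun x a => G a (x a)) := by
    funext e
    obtain ⟨n, p, s⟩ := e
    simp only [cutE, Prod.map, id]
    refine Prod.ext ?_ (Prod.ext rfl ?_)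
    · funext k
      simp only [F]
      split_ifs <;> rfl
    · funext a
      simp only [G]
      split_ifs <;> rfl
  have hmF : Measurable fun (x : ℕ → ℕ) (k : ℕ) => F k (x k) :=
    measurable_pi_iff.2 fun k => (Measurable.of_discrete (f := F k)).comp (measurable_pi_apply k)
  have hmG : Measurable fun (x : Name → ℝ) (a : Name) => G a (x a) :=
    measurable_pi_iff.2 fun a => (hG a).comp (measurable_pi_apply a)
  unfold envLaw
  rw [e1, ← Measure.map_prod_map _ _ hmF (measurable_id.prodMap hmG),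
    ← Measure.map_prod_map _ _ measurable_id hmG, Measure.map_id,
    Measure.infinitePi_map_pi _ (fun k => Measurable.of_discrete (f := F k)),
    Measure.infinitePi_map_pi _ hG]
  congr 3
  · funext k
    simp only [F, cc]
    split_ifs
    · exact Measure.map_id
    · rw [Measure.map_const, measure_univ, one_smul, poisson_zero]
  · funext a
    simp only [G, kk]
    split_ifs
    · exact Measure.map_id
    · rw [Measure.map_const, measure_univ, one_smul]

theorem lintegral_nu_cut (J : ℕ) (f : ℝ → ℝ≥0∞) :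
    ∫⁻ u, f u ∂(nu (cc c J) (kk κ J)) ≤ ∫⁻ u, f u ∂(nu c κ) := by
  unfold nu
  rw [lintegral_sum_measure, lintegral_sum_measure]
  refine ENNReal.tsum_le_tsum fun k => ?_
  simp only [cc, kk]
  split_ifs
  · exact le_rfl
  · simp

theorem Hyp.cut (h : Hyp c κ) (J : ℕ) : Hyp (cc c J) (kk κ J) where
  prob := by
    intro k
    have := h.prob k
    unfold kk
    split_ifs <;> infer_instance
  supp := by
    intro k
    unfold kk
    split_ifs
    · exact h.supp k
    · rw [Measure.dirac_apply' _ measurableSet_Ioc.compl, Set.indicator_of_notMem]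
      norm_num
  fin := ne_top_of_le_ne_top h.fin (lintegral_nu_cut J _)

theorem lst_cutE (J : ℕ) (e : Env) (K : ℕ) :
    lst (cutE J e) K = (lst e K).filter fun a => decide (a.1 < J) := by
  refine list_unique (e := e) (lst_pairwise (cutE J e) K) ((lst_pairwise e K).filter _) fun a => ?_
  rw [mem_lst, List.mem_filter, mem_lst, decide_eq_true_eq]
  simp only [present, cutE]
  by_cases h : a.1 < J
  · simp only [h, if_true, and_true]
  · simp only [h, if_false, and_false, iff_false, not_and]
    intro _ h'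
    exact absurd h' (Nat.not_lt_zero _)

theorem szs_cutE (J : ℕ) (e : Env) (K : ℕ) :
    szs (cutE J e) K = ((lst e K).filter fun a => decide (a.1 < J)).map fun a => e.2.2 a := by
  unfold szs
  rw [lst_cutE]
  refine List.map_congr_left fun a ha => ?_
  rw [List.mem_filter, decide_eq_true_eq] at ha
  simp only [cutE, ha.2, if_true]

theorem szs_cutE_const {J K : ℕ} (hK : J ≤ K) (e : Env) : szs (cutE J e) K = szs (cutE J e) J := by
  unfold szs
  congr 1
  refine list_unique (lst_pairwise (cutE J e) K) (lst_pairwise (cutE J e) J) fun a => ?_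
  rw [mem_lst, mem_lst]
  constructor
  · rintro ⟨_, h⟩
    refine ⟨?_, h⟩
    by_contra hJ
    simp only [present, cutE, if_neg hJ] at h
    exact absurd h (Nat.not_lt_zero _)
  · rintro ⟨h1, h⟩
    exact ⟨by omega, h⟩

theorem measurable_comps_szs {F : (ℕ → ℕ) → ℝ≥0∞} (hF : Measurable F) (K : ℕ) :
    Measurable fun e : Env => ∫⁻ b, F b ∂(comps (szs e K)) := by
  have hm0 : Measurable fun z : Env × (Name → ℕ → ℝ) => F (back z (lst z.1 K)) :=
    hF.comp (measurable_blist K)
  have h1 : (fun e : Env => ∫⁻ b, F b ∂(comps (szs e K))) =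
      fun e => ∫⁻ mk, F (back (e, mk) (lst e K)) ∂(Measure.infinitePi fun _ : Name => marks) := by
    funext e
    have hm : Measurable fun mk : Name → ℕ → ℝ => back (e, mk) (lst e K) :=
      (measurable_back _).comp (measurable_const.prodMk measurable_id)
    unfold szs
    rw [← law_back e (lst e K) (lst_nodup e K), lintegral_map hF hm]
  rw [h1]
  exact hm0.lintegral_prod_right'

theorem trunc_eq (h : Hyp c κ) {J K : ℕ} (hK : J ≤ K) {φ : (ℕ → ℕ) → ℝ≥0∞} (r : ℕ)
    (hφ : ∀ g g', (∀ x < r, g x = g' x) → φ g = φ g') (hφ1 : ∀ g, φ g ≤ 1) :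
    ∫⁻ e, ∫⁻ b, φ b ∂(comps (szs (cutE J e) K)) ∂(envLaw c κ) =
      ∫⁻ b, φ b ∂(BB (cc c J) (kk κ J)) := by
  have hm : Measurable φ := measurable_of_dep r φ hφ
  have t := tendsto_BB (h.cut J) r hφ hφ1
  have e1 : ∀ K, ∫⁻ e, ∫⁻ b, φ b ∂(comps (szs e K)) ∂(envLaw (cc c J) (kk κ J)) =
      ∫⁻ e, ∫⁻ b, φ b ∂(comps (szs (cutE J e) K)) ∂(envLaw c κ) := by
    intro K
    rw [← map_cutE h.prob J, lintegral_map (measurable_comps_szs hm K) (measurable_cutE J)]
  simp_rw [e1] at t
  have t2 : Tendsto (fun K => ∫⁻ e, ∫⁻ b, φ b ∂(comps (szs (cutE J e) K)) ∂(envLaw c κ)) atTop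
      (𝓝 (∫⁻ e, ∫⁻ b, φ b ∂(comps (szs (cutE J e) J)) ∂(envLaw c κ))) := by
    refine tendsto_const_nhds.congr' ?_
    filter_upwards [eventually_ge_atTop J] with K hK
    simp_rw [szs_cutE_const hK]
  rw [← tendsto_nhds_unique t2 t]
  simp_rw [szs_cutE_const hK]

/-! ### Restriction to an event of the environment -/

/-- The square of the size, for the sizes up to `θ`. -/
noncomputable def hth (θ : ℝ) : ℝ → ℝ≥0∞ := (Set.Iic θ).indicator fun u => ENNReal.ofReal u ^ 2

theorem measurable_hth (θ : ℝ) : Measurable (hth θ) :=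
  (ENNReal.measurable_ofReal.pow_const 2).indicator measurableSet_Iic

theorem cut_le (h : Hyp c κ) {J K : ℕ} (hK : J ≤ K) {G : Set Env} {θ : ℝ}
    (hGθ : ∀ᵐ e ∂(envLaw c κ), e ∈ G → ∀ a, present e a → J ≤ a.1 → e.2.2 a ≤ θ)
    {φ : (ℕ → ℕ) → ℝ≥0∞} (y : ℕ)
    (hφ : ∀ g g', (∀ x < y + 1, g x = g' x) → φ g = φ g') (hφ1 : ∀ g, φ g ≤ 1)
    (hG : MeasurableSet G) :
    ∫⁻ e in G, ∫⁻ b, φ b ∂(comps (szs e K)) ∂(envLaw c κ) ≤
      ∫⁻ b, φ b ∂(BB (cc c J) (kk κ J)) +
        ((y + 1 : ℕ) : ℝ≥0∞) ^ 2 * ∫⁻ u, hth θ u ∂(nu c κ) := by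
  have hm : Measurable φ := measurable_of_dep (y + 1) φ hφ
  have h1 : ∀ᵐ e ∂((envLaw c κ).restrict G), ∫⁻ b, φ b ∂(comps (szs e K)) ≤
      ∫⁻ b, φ b ∂(comps (szs (cutE J e) K)) + ((y + 1 : ℕ) : ℝ≥0∞) ^ 2 * asum (hth θ) e := by
    rw [ae_restrict_iff' hG]
    filter_upwards [hGθ] with e he heG
    have h2 := comps_del (fun a => e.2.2 a) (fun a => a.1 < J) y (lst e K) φ hφ hφ1
    rw [szs_cutE]
    refine h2.trans ?_
    gcongr
    have h3 : (((lst e K).filter fun a => decide (¬ a.1 < J)).map fun a =>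
        1 - hid y (e.2.2 a)).sum ≤ (((lst e K).filter fun a => decide (¬ a.1 < J)).map fun a =>
          ((y + 1 : ℕ) : ℝ≥0∞) ^ 2 * hth θ (e.2.2 a)).sum := by
      refine List.sum_le_sum fun a ha => ?_
      rw [List.mem_filter, decide_eq_true_eq, mem_lst] at ha
      have h4 := he heG a ha.1.2 (by omega)
      unfold hth
      rw [Set.indicator_of_mem (show e.2.2 a ∈ Set.Iic θ from h4)]
      exact one_sub_hid _ _
    refine h3.trans ?_
    rw [List.sum_map_mul_left]
    gcongr
    refine list_sum_le_asum (hth θ) ((lst_nodup e K).filter _) fun a ha => ?_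
    rw [List.mem_filter, mem_lst] at ha
    exact ha.1.2
  have hcamp := campbell (c := c) h.prob (measurable_hth θ)
  calc ∫⁻ e in G, ∫⁻ b, φ b ∂(comps (szs e K)) ∂(envLaw c κ)
      ≤ ∫⁻ e in G, (∫⁻ b, φ b ∂(comps (szs (cutE J e) K)) +
        ((y + 1 : ℕ) : ℝ≥0∞) ^ 2 * asum (hth θ) e) ∂(envLaw c κ) := lintegral_mono_ae h1
    _ ≤ ∫⁻ e, (∫⁻ b, φ b ∂(comps (szs (cutE J e) K)) +
        ((y + 1 : ℕ) : ℝ≥0∞) ^ 2 * asum (hth θ) e) ∂(envLaw c κ) := setLIntegral_le_lintegral _ _
    _ = _ := by
        have hm1 : Measurable fun e : Env => ∫⁻ b, φ b ∂(comps (szs (cutE J e) K)) :=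
          (measurable_comps_szs hm K).comp (measurable_cutE J)
        rw [lintegral_add_left hm1,
          trunc_eq h hK (y + 1) hφ hφ1, lintegral_const_mul _ (measurable_asum (measurable_hth θ))]
        congr 2

/-- The law of the map of a window restricted to an event of the environment. -/
noncomputable def BG (c : ℕ → ℝ≥0) (κ : ℕ → Measure ℝ) (G : Set Env) : Measure (ℕ → ℕ) :=
  ((windowLaw c κ).restrict {z | z.1 ∈ G}).map fun z => look z 1

theorem fin_BG (hκ : ∀ k, IsProbabilityMeasure (κ k)) (G : Set Env) :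
    IsFiniteMeasure (BG c κ G) := by
  have := prob_windowLaw (c := c) hκ
  unfold BG
  infer_instance

theorem BG_le (G : Set Env) : BG c κ G ≤ BB c κ := by
  unfold BG BB
  exact Measure.map_mono Measure.restrict_le_self (measurable_look 1)

theorem restrict_window (hκ : ∀ k, IsProbabilityMeasure (κ k)) (G : Set Env) :
    (windowLaw c κ).restrict {z | z.1 ∈ G} =
      ((envLaw c κ).restrict G).prod (Measure.infinitePi fun _ : Name => marks) := by
  have := prob_envLaw (c := c) hκ
  have e1 : {z : Win | z.1 ∈ G} = G ×ˢ Set.univ := by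
    ext z; simp
  have e2 := Measure.prod_restrict (μ := envLaw c κ)
    (ν := Measure.infinitePi fun _ : Name => marks) G Set.univ
  rw [Measure.restrict_univ] at e2
  rw [e2, e1]
  rfl

theorem BG_univ (hκ : ∀ k, IsProbabilityMeasure (κ k)) (G : Set Env) :
    BG c κ G Set.univ = envLaw c κ G := by
  have := prob_envLaw (c := c) hκ
  unfold BG
  rw [Measure.map_apply (measurable_look 1) MeasurableSet.univ, Set.preimage_univ,
    restrict_window hκ, ← Set.univ_prod_univ, Measure.prod_prod, Measure.restrict_apply_univ,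
    measure_univ (μ := Measure.infinitePi fun _ : Name => marks), mul_one]

theorem tendsto_BG (h : Hyp c κ) (G : Set Env) {f : (ℕ → ℕ) → ℝ≥0∞} (r : ℕ)
    (hf : ∀ g g', (∀ x < r, g x = g' x) → f g = f g') (hf1 : ∀ g, f g ≤ 1) :
    Tendsto (fun K => ∫⁻ e in G, ∫⁻ b, f b ∂(comps (szs e K)) ∂(envLaw c κ)) atTop
      (𝓝 (∫⁻ b, f b ∂(BG c κ G))) := by
  have := prob_windowLaw (c := c) h.prob
  have := prob_envLaw (c := c) h.prob
  have hm : Measurable f := measurable_of_dep r f hf
  have e1 : ∫⁻ b, f b ∂(BG c κ G) =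
      ∫⁻ z in {z | z.1 ∈ G}, f (look z 1) ∂(windowLaw c κ) :=
    lintegral_map hm (measurable_look 1)
  rw [e1]
  have e2 : ∀ K, ∫⁻ e in G, ∫⁻ b, f b ∂(comps (szs e K)) ∂(envLaw c κ) =
      ∫⁻ z in {z | z.1 ∈ G}, f (back z (lst z.1 K)) ∂(windowLaw c κ) := by
    intro K
    rw [restrict_window h.prob]
    have hm0 : Measurable fun z : Env × (Name → ℕ → ℝ) => f (back z (lst z.1 K)) :=
      hm.comp (measurable_blist K)
    rw [lintegral_prod _ hm0.aemeasurable]
    refine lintegral_congr fun e => ?_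
    have hm2 : Measurable fun mk : Name → ℕ → ℝ => back (e, mk) (lst e K) :=
      (measurable_back _).comp (measurable_const.prodMk measurable_id)
    unfold szs
    rw [← law_back e (lst e K) (lst_nodup e K), lintegral_map hm hm2]
  simp_rw [e2]
  refine tendsto_lintegral_of_dominated_convergence (fun _ => 1)
    (fun K => hm.comp (measurable_blist K)) (fun K => ae_of_all _ fun z => hf1 _) (by simp) ?_
  filter_upwards [ae_restrict_of_ae (ae_look h)] with z hz
  obtain ⟨K₀, hK₀⟩ := hz r
  refine tendsto_const_nhds.congr' ?_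
  filter_upwards [eventually_ge_atTop K₀] with K hK
  exact hf _ _ fun x hx => hK₀ K hK x hx.le

theorem BG_cut (h : Hyp c κ) {J : ℕ} {G : Set Env} {θ : ℝ}
    (hGθ : ∀ᵐ e ∂(envLaw c κ), e ∈ G → ∀ a, present e a → J ≤ a.1 → e.2.2 a ≤ θ)
    {φ : (ℕ → ℕ) → ℝ≥0∞} (y : ℕ)
    (hφ : ∀ g g', (∀ x < y + 1, g x = g' x) → φ g = φ g') (hφ1 : ∀ g, φ g ≤ 1)
    (hG : MeasurableSet G) :
    ∫⁻ b, φ b ∂(BG c κ G) ≤ ∫⁻ b, φ b ∂(BB (cc c J) (kk κ J)) +
        ((y + 1 : ℕ) : ℝ≥0∞) ^ 2 * ∫⁻ u, hth θ u ∂(nu c κ) := by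
  refine le_of_tendsto (tendsto_BG h G (y + 1) hφ hφ1) ?_
  filter_upwards [eventually_ge_atTop J] with K hK
  exact cut_le h hK hGθ y hφ hφ1 hG

end Pool.Agent.Helper97.LD
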