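import Pool.Agent.Helper97.LE.Tot

/-!
# The data of the example
-/

set_option autoImplicit false

namespace Pool.Agent.Helper97.LD

open MeasureTheory ProbabilityTheory Filter
open scoped ENNReal NNReal Topology

/-! ### Recursive choices -/

open Classical in
theorem exists_rec {α : Type} [Inhabited α] (R : (ℕ → α) → ℕ → α → Prop)
    (hcongr : ∀ p p' j v, (∀ i < j, p i = p' i) → R p j v → R p' j v)
    (hex : ∀ p j, (∀ i < j, R p i (p i)) → ∃ v, R p j v) : ∃ p, ∀ j, R p j (p j) := by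
  let pick : (ℕ → α) → ℕ → α := fun p j => if h : ∃ v, R p j v then h.choose else default
  let H : ℕ → ℕ → α := fun n => Nat.rec (fun _ => default)
    (fun j p => Function.update p j (pick p j)) n
  have hH : ∀ n, H (n + 1) = Function.update (H n) n (pick (H n) n) := fun n => rfl
  let q : ℕ → α := fun j => H (j + 1) j
  have hq : ∀ m j, j < m → H m j = q j := by
    intro m
    induction m with
    | zero => intro j hj; omega
    | succ m ih =>
      intro j hj
      rcases Nat.lt_succ_iff_lt_or_eq.1 hj with h | h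
      · rw [hH, Function.update_of_ne (by omega)]
        exact ih j h
      · subst h; rfl
  have hqp : ∀ j, q j = pick (H j) j := by
    intro j
    show H (j + 1) j = _
    rw [hH, Function.update_self]
  refine ⟨q, fun j => ?_⟩
  induction j using Nat.strong_induction_on with
  | _ j ih =>
    have h1 : ∀ i < j, R (H j) i (H j i) := by
      intro i hi
      rw [hq j i hi]
      exact hcongr q (H j) i _ (fun k hk => (hq j k (by omega)).symm) (ih i hi)
    have h2 := hex (H j) j h1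
    have h3 : R (H j) j (q j) := by
      rw [hqp]
      simp only [pick]
      rw [dif_pos h2]
      exact h2.choose_spec
    exact hcongr (H j) q j _ (fun k hk => hq j k hk) h3

/-! ### The example -/

/-- The size of the atoms of kind `k`. -/
noncomputable def sz (p : ℕ → ℕ × ℕ) (k : ℕ) : ℝ :=
  if k % 2 = 1 then 1 - 1 / ((p (k / 2)).2 : ℝ) else 1 / ((p (k / 2)).1 : ℝ)

/-- The rate of the atoms of kind `k`. -/
noncomputable def rt (p : ℕ → ℕ × ℕ) (k : ℕ) : ℝ≥0 :=
  if k % 2 = 1 then (1 / 8) ^ (k / 2 + 1) else ((p (k / 2)).1 : ℝ≥0)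

/-- The laws of the sizes. -/
noncomputable def kp (p : ℕ → ℕ × ℕ) (k : ℕ) : Measure ℝ := Measure.dirac (sz p k)

theorem sz_even (p : ℕ → ℕ × ℕ) (j : ℕ) : sz p (2 * j) = 1 / ((p j).1 : ℝ) := by
  have h1 : (2 * j) % 2 = 0 := by omega
  have h2 : (2 * j) / 2 = j := by omega
  unfold sz
  rw [h1, h2, if_neg (by norm_num)]

theorem sz_odd (p : ℕ → ℕ × ℕ) (j : ℕ) : sz p (2 * j + 1) = 1 - 1 / ((p j).2 : ℝ) := by
  have h1 : (2 * j + 1) % 2 = 1 := by omega
  have h2 : (2 * j + 1) / 2 = j := by omega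
  unfold sz
  rw [h1, h2, if_pos rfl]

theorem rt_even (p : ℕ → ℕ × ℕ) (j : ℕ) : rt p (2 * j) = ((p j).1 : ℝ≥0) := by
  have h1 : (2 * j) % 2 = 0 := by omega
  have h2 : (2 * j) / 2 = j := by omega
  unfold rt
  rw [h1, h2, if_neg (by norm_num)]

theorem rt_odd (p : ℕ → ℕ × ℕ) (j : ℕ) : rt p (2 * j + 1) = (1 / 8) ^ (j + 1) := by
  have h1 : (2 * j + 1) % 2 = 1 := by omega
  have h2 : (2 * j + 1) / 2 = j := by omega
  unfold rt
  rw [h1, h2, if_pos rfl]

/-- The bounds for the parameters. -/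
def Ok (v : ℕ × ℕ) : Prop := 3 ≤ v.1 ∧ 2 ≤ v.2

theorem sz_mem {p : ℕ → ℕ × ℕ} {k : ℕ} (h : Ok (p (k / 2))) : 0 < sz p k ∧ sz p k < 1 := by
  obtain ⟨h1, h2⟩ := h
  have h1' : (3 : ℝ) ≤ (p (k / 2)).1 := by exact_mod_cast h1
  have h2' : (2 : ℝ) ≤ (p (k / 2)).2 := by exact_mod_cast h2
  unfold sz
  split_ifs
  · have h3 : 0 < 1 / ((p (k / 2)).2 : ℝ) := by positivity
    have h4 : 1 / ((p (k / 2)).2 : ℝ) ≤ 1 / 2 := one_div_le_one_div_of_le (by norm_num) h2'
    constructor <;> linarith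
  · have h3 : 0 < 1 / ((p (k / 2)).1 : ℝ) := by positivity
    have h4 : 1 / ((p (k / 2)).1 : ℝ) ≤ 1 / 3 := one_div_le_one_div_of_le (by norm_num) h1'
    constructor <;> linarith

/-- The law of the map of a window with the kinds smaller than `2 j`. -/
noncomputable def CT (p : ℕ → ℕ × ℕ) (j : ℕ) : Measure (ℕ → ℕ) :=
  BB (cc (rt p) (2 * j)) (kk (kp p) (2 * j))

theorem CT_congr {p p' : ℕ → ℕ × ℕ} {j : ℕ} (h : ∀ i < j, p i = p' i) : CT p j = CT p' j := by
  have h1 : ∀ k < 2 * j, p (k / 2) = p' (k / 2) := fun k hk => h _ (by omega)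
  have e1 : cc (rt p) (2 * j) = cc (rt p') (2 * j) := by
    funext k
    unfold cc
    split_ifs with hk
    · unfold rt; rw [h1 k hk]
    · rfl
  have e2 : kk (kp p) (2 * j) = kk (kp p') (2 * j) := by
    funext k
    unfold kk
    split_ifs with hk
    · unfold kp sz; rw [h1 k hk]
    · rfl
  unfold CT
  rw [e1, e2]

theorem hyp_CT {p : ℕ → ℕ × ℕ} {j : ℕ} (h : ∀ i < j, Ok (p i)) :
    Hyp (cc (rt p) (2 * j)) (kk (kp p) (2 * j)) ∧
    ∫⁻ u, ENNReal.ofReal u ∂(nu (cc (rt p) (2 * j)) (kk (kp p) (2 * j))) ≠ ∞ ∧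
    nu (cc (rt p) (2 * j)) (kk (kp p) (2 * j)) {1} = 0 := by
  have hsz : ∀ k < 2 * j, 0 < sz p k ∧ sz p k < 1 := fun k hk => sz_mem (h _ (by omega))
  have hint : ∀ f : ℝ → ℝ≥0∞, Measurable f → (∀ u, u ≤ 1 → f u ≤ 1) →
      ∫⁻ u, f u ∂(nu (cc (rt p) (2 * j)) (kk (kp p) (2 * j))) ≠ ∞ := by
    intro f hf hf1
    unfold nu
    rw [lintegral_sum_measure]
    rw [tsum_eq_sum (s := Finset.range (2 * j))]
    · refine ENNReal.sum_ne_top.2 fun k hk => ?_
      rw [Finset.mem_range] at hk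
      rw [lintegral_smul_measure, smul_eq_mul]
      refine ENNReal.mul_ne_top (by simp) ?_
      unfold kk
      rw [if_pos hk]
      unfold kp
      rw [lintegral_dirac' _ hf]
      exact ne_top_of_le_ne_top ENNReal.one_ne_top (hf1 _ (hsz k hk).2.le)
    · intro k hk
      rw [Finset.mem_range] at hk
      simp [cc, hk]
  refine ⟨⟨?_, ?_, ?_⟩, ?_, ?_⟩
  · intro k
    unfold kk kp
    split_ifs <;> infer_instance
  · intro k
    unfold kk kp
    split_ifs with hk
    · rw [Measure.dirac_apply' _ measurableSet_Ioc.compl, Set.indicator_of_notMem]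
      rw [Set.notMem_compl_iff]
      exact ⟨(hsz k hk).1, (hsz k hk).2.le⟩
    · rw [Measure.dirac_apply' _ measurableSet_Ioc.compl, Set.indicator_of_notMem]
      norm_num
  · refine hint _ (ENNReal.measurable_ofReal.pow_const 2) fun u hu => ?_
    refine pow_le_one' ?_ 2
    rwa [ENNReal.ofReal_le_one]
  · exact hint _ ENNReal.measurable_ofReal fun u hu => by rwa [ENNReal.ofReal_le_one]
  · unfold nu
    rw [Measure.sum_apply _ (measurableSet_singleton 1), ENNReal.tsum_eq_zero]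
    intro k
    rw [Measure.smul_apply, smul_eq_mul]
    unfold kk kp
    split_ifs with hk
    · rw [Measure.dirac_apply' _ (measurableSet_singleton 1), Set.indicator_of_notMem, mul_zero]
      simpa using (hsz k hk).2.ne
    · rw [Measure.dirac_apply' _ (measurableSet_singleton 1), Set.indicator_of_notMem, mul_zero]
      norm_num

/-! ### The choice of the low levels -/

theorem tendsto_two {C : Measure (ℕ → ℕ)} [IsFiniteMeasure C] (hs : ∀ᵐ b ∂C, Surj b) (r : ℕ) :
    Tendsto (fun k : ℕ => C {g | nb g (k + 1) ≤ r}) atTop (𝓝 0) := by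
  have h1 : Antitone fun k : ℕ => {g : ℕ → ℕ | nb g (k + 1) ≤ r} := by
    intro k k' hk g hg
    have h2 : nb g (k' + 1) ≤ r := hg
    exact (nb_mono g (by omega : k + 1 ≤ k' + 1)).trans h2
  have h2 := tendsto_measure_iInter_atTop (μ := C)
    (fun k => (meas_nb_le r (k + 1)).nullMeasurableSet) h1 ⟨0, measure_ne_top _ _⟩
  have h3 : C (⋂ k : ℕ, {g : ℕ → ℕ | nb g (k + 1) ≤ r}) = 0 := by
    refine measure_eq_zero_iff_ae_notMem.2 ?_
    filter_upwards [hs] with b hb hmem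
    obtain ⟨m, hm⟩ := hb (r + 1)
    have h4 : nb b (m + 1) ≤ r := Set.mem_iInter.1 hmem m
    have h5 := nb_mono b (show m ≤ m + 1 by omega)
    omega
  rwa [h3] at h2

theorem tendsto_inv_nb {C : Measure (ℕ → ℕ)} [IsFiniteMeasure C] (hs : ∀ᵐ b ∂C, Surj b) :
    Tendsto (fun k : ℕ => ∫⁻ b, ((nb b (k + 1) : ℕ) : ℝ≥0∞)⁻¹ ∂C) atTop (𝓝 0) := by
  have t1 := tendsto_lintegral_of_dominated_convergence (μ := C)
    (F := fun (k : ℕ) (b : ℕ → ℕ) => ((nb b (k + 1) : ℕ) : ℝ≥0∞)⁻¹) (f := fun _ => 0)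
    (fun _ => 1) (fun k => measurable_inv_nb (k + 1))
    (fun k => ae_of_all _ fun b => inv_nb_le_one b (by omega)) (by simp) (by
      filter_upwards [hs] with b hb
      have t2 : Tendsto (fun k : ℕ => nb b (k + 1)) atTop atTop := by
        rw [tendsto_atTop]
        intro R
        obtain ⟨m, hm⟩ := hb R
        filter_upwards [eventually_ge_atTop m] with k hk
        exact hm.trans (nb_mono b (by omega))
      have t3 : Tendsto (fun k : ℕ => ((nb b (k + 1) : ℕ) : ℝ≥0∞)) atTop (𝓝 ∞) :=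
        ENNReal.tendsto_nat_nhds_top.comp t2
      have t4 := tendsto_inv_iff.2 t3
      rwa [ENNReal.inv_top] at t4)
  simpa using t1

/-- The choice of the number of the low levels. -/
theorem exists_low {p : ℕ → ℕ × ℕ} {j : ℕ} (h : ∀ i < j, Ok (p i)) (N : ℕ) {η : ℝ≥0∞}
    (hη : η ≠ 0) : ∃ K : ℕ,
      ∑ n ∈ Finset.range N, iter (CT p j) (n + 1) {g | nb g (K + 1) ≤ 2} ≤ η ∧
      ∫⁻ b, ((nb b (K + 1) : ℕ) : ℝ≥0∞)⁻¹ ∂(CT p j) ≤ η := by
  obtain ⟨h1, h2, h3⟩ := hyp_CT h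
  have hs : ∀ᵐ b ∂(CT p j), Surj b := surj_BB h1 h2 h3
  have : IsProbabilityMeasure (CT p j) := prob_BB h1.prob
  have hn : Nice (CT p j) := nice_BB h1
  have t1 : Tendsto (fun K : ℕ => ∑ n ∈ Finset.range N,
      iter (CT p j) (n + 1) {g | nb g (K + 1) ≤ 2}) atTop (𝓝 0) := by
    have := tendsto_finsetSum (Finset.range N) (f := fun (n : ℕ) (K : ℕ) =>
      iter (CT p j) (n + 1) {g | nb g (K + 1) ≤ 2}) (a := fun _ => 0) (x := atTop)
      fun n _ => tendsto_two (iter_surj hn hs (n + 1)) 2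
    simpa using this
  have t2 := tendsto_inv_nb hs
  have e1 := t1.eventually (ge_mem_nhds (pos_iff_ne_zero.2 hη))
  have e2 := t2.eventually (ge_mem_nhds (pos_iff_ne_zero.2 hη))
  obtain ⟨K, hK⟩ := (e1.and e2).exists
  exact ⟨K, hK.1, hK.2⟩

end Pool.Agent.Helper97.LD
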