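import Pool.Agent.Helper97.LE.Choice

/-!
# The properties of the example
-/

set_option autoImplicit false

namespace Pool.Agent.Helper97.LD

open MeasureTheory ProbabilityTheory Filter
open scoped ENNReal NNReal Topology

variable {p : ℕ → ℕ × ℕ}

theorem grow (hp : ∀ j, Step p j (p j)) (j m : ℕ) : 2 ^ m * (p j).1 ≤ (p (j + m)).1 := by
  induction m with
  | zero => simp
  | succ m ih =>
    have h1 := ((hp (j + (m + 1))).2.2.1 (j + m) (by omega)).1
    calc 2 ^ (m + 1) * (p j).1 = 2 * (2 ^ m * (p j).1) := by ring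
      _ ≤ 2 * (p (j + m)).1 := by gcongr
      _ ≤ _ := h1

theorem mono_B (hp : ∀ j, Step p j (p j)) {i j : ℕ} (h : i ≤ j) : (p i).2 ≤ (p j).2 := by
  rcases h.eq_or_lt with h | h
  · rw [h]
  · exact ((hp j).2.2.1 i h).2.2

theorem A_ge (hp : ∀ j, Step p j (p j)) (j : ℕ) : (3 : ℝ) ≤ (p j).1 := by
  exact_mod_cast (hp j).1.1

theorem B_ge (hp : ∀ j, Step p j (p j)) (j : ℕ) : (2 : ℝ) ≤ (p j).2 := by
  exact_mod_cast (hp j).1.2

theorem lt_A (hp : ∀ j, Step p j (p j)) {i j : ℕ} (h : i < j) : (p i).1 < (p j).1 := by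
  have h1 := ((hp j).2.2.1 i h).1
  have h2 := (hp i).1.1
  omega

theorem ofReal_inv_nat {A : ℕ} (h : 0 < A) : ENNReal.ofReal (1 / (A : ℝ)) = (A : ℝ≥0∞)⁻¹ := by
  rw [one_div, ENNReal.ofReal_inv_of_pos (by exact_mod_cast h), ENNReal.ofReal_natCast]

theorem lintegral_nup (f : ℝ → ℝ≥0∞) (hf : Measurable f) :
    ∫⁻ u, f u ∂(nu (rt p) (kp p)) = ∑' j, ((p j).1 : ℝ≥0∞) * f (1 / ((p j).1 : ℝ)) +
      ∑' j : ℕ, ((1 / 8 : ℝ≥0) ^ (j + 1) : ℝ≥0) * f (1 - 1 / ((p j).2 : ℝ)) := by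
  unfold nu
  rw [lintegral_sum_measure]
  have h1 : ∀ k, ∫⁻ u, f u ∂((rt p k : ℝ≥0∞) • kp p k) = (rt p k : ℝ≥0∞) * f (sz p k) := by
    intro k
    rw [lintegral_smul_measure, smul_eq_mul]
    unfold kp
    rw [lintegral_dirac' _ hf]
  rw [tsum_congr h1, ← tsum_even_add_odd (f := fun k => (rt p k : ℝ≥0∞) * f (sz p k))
    ENNReal.summable ENNReal.summable]
  congr 1
  · refine tsum_congr fun j => ?_
    rw [rt_even, sz_even]
    simp
  · refine tsum_congr fun j => ?_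
    rw [rt_odd, sz_odd]

theorem tsum_eighth : ∑' j : ℕ, (((1 / 8 : ℝ≥0) ^ (j + 1) : ℝ≥0) : ℝ≥0∞) ≠ ∞ := by
  have h1 : ∀ j : ℕ, (((1 / 8 : ℝ≥0) ^ (j + 1) : ℝ≥0) : ℝ≥0∞) ≤ (8 : ℝ≥0∞)⁻¹ ^ j := by
    intro j
    rw [ENNReal.coe_pow, pow_succ]
    have e1 : ((1 / 8 : ℝ≥0) : ℝ≥0∞) = 8⁻¹ := by
      rw [one_div, ENNReal.coe_inv (by norm_num)]; rfl
    rw [e1]
    calc (8 : ℝ≥0∞)⁻¹ ^ j * 8⁻¹ ≤ 8⁻¹ ^ j * 1 := by
          gcongr
          rw [ENNReal.inv_le_one]; norm_num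
      _ = _ := mul_one _
  refine ne_top_of_le_ne_top ?_ (ENNReal.tsum_le_tsum h1)
  rw [ENNReal.tsum_geometric]
  refine ENNReal.inv_ne_top.2 ?_
  refine (tsub_pos_of_lt ?_).ne'
  rw [ENNReal.inv_lt_one]; norm_num

theorem A_sq (hp : ∀ j, Step p j (p j)) (j : ℕ) :
    ((p j).1 : ℝ≥0∞) * ENNReal.ofReal (1 / ((p j).1 : ℝ)) ^ 2 = ((p j).1 : ℝ≥0∞)⁻¹ := by
  have h0 : 0 < (p j).1 := lt_of_lt_of_le (by norm_num) (hp j).1.1
  rw [ofReal_inv_nat h0, sq, ← mul_assoc, ENNReal.mul_inv_cancel (by simp; omega) (by simp),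
    one_mul]

theorem invA_le (hp : ∀ j, Step p j (p j)) (j : ℕ) :
    ((p j).1 : ℝ≥0∞)⁻¹ ≤ (16 : ℝ≥0∞)⁻¹ ^ j := by
  rw [← ENNReal.inv_pow, ENNReal.inv_le_inv]
  exact_mod_cast (hp j).2.1

theorem hyp_p (hp : ∀ j, Step p j (p j)) : Hyp (rt p) (kp p) where
  prob := by intro k; unfold kp; infer_instance
  supp := by
    intro k
    unfold kp
    rw [Measure.dirac_apply' _ measurableSet_Ioc.compl, Set.indicator_of_notMem]
    rw [Set.notMem_compl_iff]
    have := sz_mem (p := p) (k := k) (hp _).1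
    exact ⟨this.1, this.2.le⟩
  fin := by
    rw [lintegral_nup _ (ENNReal.measurable_ofReal.pow_const 2)]
    refine ENNReal.add_ne_top.2 ⟨?_, ?_⟩
    · simp_rw [A_sq hp]
      refine ne_top_of_le_ne_top ?_ (ENNReal.tsum_le_tsum fun j => invA_le hp j)
      rw [ENNReal.tsum_geometric]
      refine ENNReal.inv_ne_top.2 (tsub_pos_of_lt ?_).ne'
      rw [ENNReal.inv_lt_one]; norm_num
    · refine ne_top_of_le_ne_top tsum_eighth (ENNReal.tsum_le_tsum fun j => ?_)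
      have h1 : ENNReal.ofReal (1 - 1 / ((p j).2 : ℝ)) ^ 2 ≤ 1 := by
        refine pow_le_one' ?_ 2
        rw [ENNReal.ofReal_le_one]
        have : 0 ≤ 1 / ((p j).2 : ℝ) := by positivity
        linarith
      calc _ ≤ (((1 / 8 : ℝ≥0) ^ (j + 1) : ℝ≥0) : ℝ≥0∞) * 1 := by gcongr
        _ = _ := mul_one _

theorem nu_p_one (hp : ∀ j, Step p j (p j)) : nu (rt p) (kp p) {1} = 0 := by
  rw [← lintegral_indicator_one (measurableSet_singleton (1 : ℝ)),
    lintegral_nup _ (measurable_one.indicator (measurableSet_singleton 1))]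
  have hA := A_ge hp
  have hB := B_ge hp
  have h1 : ∀ j, ({1} : Set ℝ).indicator (1 : ℝ → ℝ≥0∞) (1 / ((p j).1 : ℝ)) = 0 := by
    intro j
    rw [Set.indicator_of_notMem]
    have := hA j
    have h2 : 1 / ((p j).1 : ℝ) ≤ 1 / 3 := one_div_le_one_div_of_le (by norm_num) this
    rw [Set.mem_singleton_iff]
    linarith
  have h2 : ∀ j, ({1} : Set ℝ).indicator (1 : ℝ → ℝ≥0∞) (1 - 1 / ((p j).2 : ℝ)) = 0 := by
    intro j
    rw [Set.indicator_of_notMem]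
    have := hB j
    have h2 : 0 < 1 / ((p j).2 : ℝ) := by positivity
    rw [Set.mem_singleton_iff]
    linarith
  simp only [h1, h2, mul_zero, tsum_zero, add_zero]

theorem nu_p_size (hp : ∀ j, Step p j (p j)) :
    ∫⁻ u, ENNReal.ofReal u ∂(nu (rt p) (kp p)) = ∞ := by
  rw [lintegral_nup _ ENNReal.measurable_ofReal]
  have h1 : ∀ j, ((p j).1 : ℝ≥0∞) * ENNReal.ofReal (1 / ((p j).1 : ℝ)) = 1 := by
    intro j
    have h0 : 0 < (p j).1 := lt_of_lt_of_le (by norm_num) (hp j).1.1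
    rw [ofReal_inv_nat h0, ENNReal.mul_inv_cancel (by simp; omega) (by simp)]
  simp_rw [h1]
  rw [ENNReal.tsum_const_eq_top_of_ne_zero one_ne_zero, top_add]

theorem nu_p_ne (hp : ∀ j, Step p j (p j)) : nu (rt p) (kp p) ≠ 0 := by
  intro h0
  have := nu_p_size hp
  rw [h0] at this
  simp at this

theorem tau_le (hp : ∀ j, Step p j (p j)) (j : ℕ) :
    ∫⁻ u, hth (1 / ((p j).1 : ℝ)) u ∂(nu (rt p) (kp p)) ≤
      ENNReal.ofReal (2 / ((p j).1 : ℝ)) := by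
  rw [lintegral_nup _ (measurable_hth _)]
  have hA := A_ge hp
  have hB := B_ge hp
  have hodd : ∀ i, hth (1 / ((p j).1 : ℝ)) (1 - 1 / ((p i).2 : ℝ)) = 0 := by
    intro i
    unfold hth
    rw [Set.indicator_of_notMem]
    have h1 : 1 / ((p i).2 : ℝ) ≤ 1 / 2 := one_div_le_one_div_of_le (by norm_num) (hB i)
    have h2 : 1 / ((p j).1 : ℝ) ≤ 1 / 3 := one_div_le_one_div_of_le (by norm_num) (hA j)
    rw [Set.mem_Iic, not_le]
    linarith
  simp only [hodd, mul_zero, tsum_zero, add_zero]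
  rw [← Summable.sum_add_tsum_nat_add' (k := j) ENNReal.summable]
  have h1 : ∀ i ∈ Finset.range j, ((p i).1 : ℝ≥0∞) * hth (1 / ((p j).1 : ℝ)) (1 / ((p i).1 : ℝ)) =
      0 := by
    intro i hi
    rw [Finset.mem_range] at hi
    have h2 : ((p i).1 : ℝ) < (p j).1 := by exact_mod_cast lt_A hp hi
    have h3 := hA i
    unfold hth
    rw [Set.indicator_of_notMem, mul_zero]
    rw [Set.mem_Iic, not_le]
    exact one_div_lt_one_div_of_lt (by linarith) h2
  rw [Finset.sum_eq_zero h1, zero_add]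
  have h2 : ∀ m : ℕ, ((p (m + j)).1 : ℝ≥0∞) *
      hth (1 / ((p j).1 : ℝ)) (1 / ((p (m + j)).1 : ℝ)) ≤
      (2 : ℝ≥0∞)⁻¹ ^ m * ((p j).1 : ℝ≥0∞)⁻¹ := by
    intro m
    have h3 : hth (1 / ((p j).1 : ℝ)) (1 / ((p (m + j)).1 : ℝ)) ≤
        ENNReal.ofReal (1 / ((p (m + j)).1 : ℝ)) ^ 2 := by
      unfold hth
      exact Set.indicator_le_self _ (fun u => ENNReal.ofReal u ^ 2) (1 / ((p (m + j)).1 : ℝ))
    calc _ ≤ ((p (m + j)).1 : ℝ≥0∞) * ENNReal.ofReal (1 / ((p (m + j)).1 : ℝ)) ^ 2 := by gcongr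
      _ = ((p (m + j)).1 : ℝ≥0∞)⁻¹ := A_sq hp _
      _ ≤ ((2 ^ m * (p j).1 : ℕ) : ℝ≥0∞)⁻¹ := by
          rw [ENNReal.inv_le_inv]
          have := grow hp j m
          rw [add_comm j m] at this
          exact_mod_cast this
      _ = _ := by
          push_cast
          rw [ENNReal.mul_inv (Or.inl (by simp)) (Or.inl (by simp)), ENNReal.inv_pow]
  refine (ENNReal.tsum_le_tsum h2).trans ?_
  rw [ENNReal.tsum_mul_right, ENNReal.tsum_geometric, ENNReal.one_sub_inv_two, inv_inv]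
  have h0 : 0 < (p j).1 := lt_of_lt_of_le (by norm_num) (hp j).1.1
  apply le_of_eq
  have e1 : (2 : ℝ) / ((p j).1 : ℝ) = 2 * (1 / ((p j).1 : ℝ)) := by ring
  rw [← ofReal_inv_nat h0, e1, ENNReal.ofReal_mul (by norm_num)]
  congr 1
  simp

/-! ### The good events -/

/-- There is no large atom of index at least `j`. -/
def GE (j : ℕ) : Set Env := {e | ∀ i, j ≤ i → e.1 (2 * i + 1) = 0}

theorem meas_cnt (k : ℕ) : MeasurableSet {e : Env | e.1 k = 0} :=
  measurableSet_eq_fun ((measurable_pi_apply k).comp measurable_fst) measurable_const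

theorem meas_GE (j : ℕ) : MeasurableSet (GE j) := by
  have : GE j = ⋂ i, ⋂ _ : j ≤ i, {e : Env | e.1 (2 * i + 1) = 0} := by
    ext e; simp [GE]
  rw [this]
  exact MeasurableSet.iInter fun i => MeasurableSet.iInter fun _ => meas_cnt _

theorem GE_le (hp : ∀ j, Step p j (p j)) (j : ℕ) :
    envLaw (rt p) (kp p) (GE j) ≤ ENNReal.ofReal (Real.exp (-rr j)) := by
  have h1 : GE j ⊆ {e : Env | e.1 (2 * j + 1) = 0} := fun e he => he j le_rfl
  refine (measure_mono h1).trans (le_of_eq ?_)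
  have h2 := lintegral_count (c := rt p) (hyp_p hp).prob (2 * j + 1)
    (({0} : Set ℕ).indicator fun _ => 1)
  have h3 : ∫⁻ e, ({0} : Set ℕ).indicator (fun _ => (1 : ℝ≥0∞)) (e.1 (2 * j + 1))
      ∂(envLaw (rt p) (kp p)) = envLaw (rt p) (kp p) {e : Env | e.1 (2 * j + 1) = 0} := by
    rw [← lintegral_indicator_one (meas_cnt _)]
    refine lintegral_congr fun e => ?_
    simp only [Set.indicator, Set.mem_singleton_iff, Set.mem_ofPred_eq, Pi.one_apply]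
  rw [h3, lintegral_indicator_const (MeasurableSet.of_discrete), one_mul,
    poissonMeasure_singleton] at h2
  rw [h2, rt_odd]
  congr 1
  simp [rr]

theorem GE_compl_le (hp : ∀ j, Step p j (p j)) (j : ℕ) :
    envLaw (rt p) (kp p) (GE j)ᶜ ≤ (8 : ℝ≥0∞)⁻¹ ^ j := by
  have h1 : (GE j)ᶜ ⊆ ⋃ m : ℕ, {e : Env | e.1 (2 * (m + j) + 1) = 0}ᶜ := by
    intro e he
    have he' : ¬ ∀ i, j ≤ i → e.1 (2 * i + 1) = 0 := he
    push Not at he'
    obtain ⟨i, hi, hne⟩ := he'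
    rw [Set.mem_iUnion]
    refine ⟨i - j, ?_⟩
    have : i - j + j = i := by omega
    rw [this]
    exact hne
  refine (measure_mono h1).trans ((measure_iUnion_le _).trans ?_)
  have h2 : ∀ m : ℕ, envLaw (rt p) (kp p) {e : Env | e.1 (2 * (m + j) + 1) = 0}ᶜ ≤
      (8 : ℝ≥0∞)⁻¹ ^ m * (8⁻¹ ^ j * 8⁻¹) := by
    intro m
    have h3 := lintegral_count (c := rt p) (hyp_p hp).prob (2 * (m + j) + 1)
      (fun n => (n : ℝ≥0∞))
    rw [poisson_mean, rt_odd] at h3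
    have e1 : (((1 / 8 : ℝ≥0) ^ (m + j + 1) : ℝ≥0) : ℝ≥0∞) = 8⁻¹ ^ m * (8⁻¹ ^ j * 8⁻¹) := by
      rw [ENNReal.coe_pow, pow_succ, pow_add, mul_assoc]
      have e1 : ((1 / 8 : ℝ≥0) : ℝ≥0∞) = 8⁻¹ := by
        rw [one_div, ENNReal.coe_inv (by norm_num)]; rfl
      rw [e1]
    rw [← e1, ← h3, ← lintegral_indicator_one (meas_cnt _).compl]
    refine lintegral_mono fun e => ?_
    by_cases h4 : e.1 (2 * (m + j) + 1) = 0
    · rw [Set.indicator_of_notMem (show e ∉ {e : Env | e.1 (2 * (m + j) + 1) = 0}ᶜ from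
        fun h' => h' h4)]
      exact zero_le
    · rw [Set.indicator_of_mem (show e ∈ {e : Env | e.1 (2 * (m + j) + 1) = 0}ᶜ from h4)]
      simp only [Pi.one_apply]
      exact_mod_cast Nat.one_le_iff_ne_zero.2 h4
  refine (ENNReal.tsum_le_tsum h2).trans ?_
  rw [ENNReal.tsum_mul_right, ENNReal.tsum_geometric]
  have h5 : (1 - (8 : ℝ≥0∞)⁻¹)⁻¹ ≤ 8 := by
    rw [ENNReal.inv_le_iff_inv_le]
    refine ENNReal.le_sub_of_add_le_right (by simp) ?_
    rw [← ENNReal.toReal_le_toReal (by simp) (by simp), ENNReal.toReal_add (by simp) (by simp)]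
    norm_num
  calc (1 - (8 : ℝ≥0∞)⁻¹)⁻¹ * (8⁻¹ ^ j * 8⁻¹) ≤ 8 * (8⁻¹ ^ j * 8⁻¹) := by gcongr
    _ = 8⁻¹ ^ j * (8 * 8⁻¹) := by ring
    _ = _ := by rw [ENNReal.mul_inv_cancel (by norm_num) (by norm_num), mul_one]

theorem ae_sizes (hp : ∀ j, Step p j (p j)) :
    ∀ᵐ e ∂(envLaw (rt p) (kp p)), ∀ a : Name, e.2.2 a = sz p a.1 := by
  have := (hyp_p hp).prob
  rw [ae_all_iff]
  intro a
  have h1 : (envLaw (rt p) (kp p)).map (fun e : Env => e.2.2 a) = Measure.dirac (sz p a.1) := by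
    unfold envLaw
    have e1 : (fun e : Env => e.2.2 a) =
        (fun x : Name → ℝ => x a) ∘ Prod.snd ∘ Prod.snd := rfl
    rw [e1, ← Measure.map_map (measurable_pi_apply a) (measurable_snd.comp measurable_snd),
      ← Measure.map_map measurable_snd measurable_snd, Measure.map_snd_prod, measure_univ,
      one_smul, Measure.map_snd_prod, measure_univ, one_smul, Measure.infinitePi_map_eval]
    rfl
  have h2 : ∀ᵐ x ∂((envLaw (rt p) (kp p)).map (fun e : Env => e.2.2 a)), x = sz p a.1 := by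
    rw [h1, ae_dirac_eq]
    exact rfl
  exact ae_of_ae_map (measurable_size a).aemeasurable h2

theorem good_sizes (hp : ∀ j, Step p j (p j)) (j : ℕ) :
    ∀ᵐ e ∂(envLaw (rt p) (kp p)), e ∈ GE j → ∀ a, present e a → 2 * j ≤ a.1 →
      e.2.2 a ≤ 1 / ((p j).1 : ℝ) := by
  filter_upwards [ae_sizes hp] with e he hG a ha hja
  rw [he a]
  obtain ⟨i, hi | hi⟩ : ∃ i, a.1 = 2 * i ∨ a.1 = 2 * i + 1 := ⟨a.1 / 2, by omega⟩
  · rw [hi, sz_even]
    have h1 : j ≤ i := by omega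
    have h2 : (p j).1 ≤ (p i).1 := by
      rcases h1.eq_or_lt with h | h
      · rw [h]
      · exact (lt_A hp h).le
    have h3 := A_ge hp j
    exact one_div_le_one_div_of_le (by linarith) (by exact_mod_cast h2)
  · exfalso
    have h1 := hG i (by omega)
    unfold present at ha
    rw [hi, h1] at ha
    exact absurd ha (Nat.not_lt_zero _)

end Pool.Agent.Helper97.LD
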