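import Pool.Agent.Helper97.LE.Exa
import Pool.Agent.Helper97.LD.Process

/-!
# The failures of the example are summable and the example does not come down from infinity
-/

set_option autoImplicit false

namespace Pool.Agent.Helper97.LD

open MeasureTheory ProbabilityTheory Filter
open scoped ENNReal NNReal Topology

variable {p : ℕ → ℕ × ℕ}

theorem lintegral_BB_split {c : ℕ → ℝ≥0} {κ : ℕ → Measure ℝ} {G : Set Env}
    (hG : MeasurableSet G) {φ : (ℕ → ℕ) → ℝ≥0∞} (hφ : Measurable φ) :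
    ∫⁻ b, φ b ∂(BB c κ) = ∫⁻ b, φ b ∂(BG c κ G) + ∫⁻ b, φ b ∂(BG c κ Gᶜ) := by
  unfold BB BG
  rw [lintegral_map hφ (measurable_look 1), lintegral_map hφ (measurable_look 1),
    lintegral_map hφ (measurable_look 1)]
  have h1 : MeasurableSet {z : Win | z.1 ∈ G} := measurable_fst hG
  exact (lintegral_add_compl _ h1).symm

/-- The conditions on the numbers `N`, `K`, `M` of index `j`. -/
def Cond (p : ℕ → ℕ × ℕ) (j N K M : ℕ) : Prop :=
  K ≤ M ∧ Real.exp (-rr j) ^ N ≤ eta j * rho j ∧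
    ∑ n ∈ Finset.range N, iter (CT p j) (n + 1) {g | nb g (K + 1) ≤ 2} ≤
      ENNReal.ofReal (eta j) ∧
    ∫⁻ b, ((nb b (K + 1) : ℕ) : ℝ≥0∞)⁻¹ ∂(CT p j) ≤ ENNReal.ofReal (eta j) ∧
    ((K : ℝ) + 1) ^ 2 * 2 * ((N : ℝ) + 1) ^ 2 ≤ eta j * (p j).1 ∧
    (1 - 1 / ((p j).1 : ℝ)) ^ (M + 1) ≤ eta j ∧
    2 * (((M : ℝ) + 1) / (p j).2) ≤ eta j * rho j

theorem sigma_le (hp : ∀ j, Step p j (p j)) {j N K M : ℕ} (h : Cond p j N K M) :
    ((N : ℝ≥0∞) + 1) ^ 2 * (((K + 1 : ℕ) : ℝ≥0∞) ^ 2 *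
      ∫⁻ u, hth (1 / ((p j).1 : ℝ)) u ∂(nu (rt p) (kp p))) ≤ ENNReal.ofReal (eta j) := by
  have hA := A_ge hp j
  have h1 := h.2.2.2.2.1
  calc ((N : ℝ≥0∞) + 1) ^ 2 * (((K + 1 : ℕ) : ℝ≥0∞) ^ 2 *
      ∫⁻ u, hth (1 / ((p j).1 : ℝ)) u ∂(nu (rt p) (kp p)))
      ≤ ((N : ℝ≥0∞) + 1) ^ 2 * (((K + 1 : ℕ) : ℝ≥0∞) ^ 2 *
        ENNReal.ofReal (2 / ((p j).1 : ℝ))) := by
        gcongr
        exact tau_le hp j
    _ = ENNReal.ofReal (((N : ℝ) + 1) ^ 2 * (((K : ℝ) + 1) ^ 2 * (2 / ((p j).1 : ℝ)))) := by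
        have e1 : (N : ℝ≥0∞) + 1 = ENNReal.ofReal ((N : ℝ) + 1) := by
          rw [ENNReal.ofReal_add (by positivity) (by norm_num), ENNReal.ofReal_natCast,
            ENNReal.ofReal_one]
        have e2 : ((K + 1 : ℕ) : ℝ≥0∞) = ENNReal.ofReal ((K : ℝ) + 1) := by
          rw [← ENNReal.ofReal_natCast]; push_cast; rfl
        rw [e1, e2, ← ENNReal.ofReal_pow (by positivity), ← ENNReal.ofReal_pow (by positivity),
          ← ENNReal.ofReal_mul (by positivity), ← ENNReal.ofReal_mul (by positivity)]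
    _ ≤ ENNReal.ofReal (eta j) := by
        refine ENNReal.ofReal_le_ofReal ?_
        have h2 : ((N : ℝ) + 1) ^ 2 * (((K : ℝ) + 1) ^ 2 * (2 / ((p j).1 : ℝ))) =
            (((K : ℝ) + 1) ^ 2 * 2 * ((N : ℝ) + 1) ^ 2) / ((p j).1 : ℝ) := by ring
        rw [h2, div_le_iff₀ (by linarith)]
        exact h1

theorem surj_p (hp : ∀ j, Step p j (p j)) : ∀ᵐ b ∂(BB (rt p) (kp p)), Surj b := by
  have h := hyp_p hp
  have := prob_envLaw (c := rt p) h.prob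
  have hC : ∀ j, ∃ N K M, Cond p j N K M := fun j => (hp j).2.2.2
  choose N K M hc using hC
  have hx : Tendsto (fun j => ENNReal.ofReal (eta j) + ENNReal.ofReal (eta j) +
      (8 : ℝ≥0∞)⁻¹ ^ j) atTop (𝓝 0) := by
    have t1 : Tendsto (fun j => ENNReal.ofReal (eta j)) atTop (𝓝 0) := by
      have := (tendsto_pow_atTop_nhds_zero_of_lt_one (r := (1 / 16 : ℝ)) (by norm_num)
        (by norm_num))
      have h2 := (ENNReal.continuous_ofReal.tendsto 0).comp this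
      rw [ENNReal.ofReal_zero] at h2
      exact h2
    have t2 : Tendsto (fun j : ℕ => (8 : ℝ≥0∞)⁻¹ ^ j) atTop (𝓝 0) := by
      refine ENNReal.tendsto_pow_atTop_nhds_zero_of_lt_one ?_
      rw [ENNReal.inv_lt_one]; norm_num
    simpa using (t1.add t1).add t2
  refine surj_of_inv _ hx (fun j => K j + 1) fun j => ?_
  have hm : Measurable fun b : ℕ → ℕ => ((nb b (K j + 1) : ℕ) : ℝ≥0∞)⁻¹ := measurable_inv_nb _
  rw [lintegral_BB_split (meas_GE j) hm]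
  gcongr ?_ + ?_
  · have h1 := BG_cut h (good_sizes hp j) (φ := fun b => ((nb b (K j + 1) : ℕ) : ℝ≥0∞)⁻¹) (K j)
      (fun g g' hg => by simp only [nb_congr hg]) (fun g => inv_nb_le_one g (by omega))
      (meas_GE j)
    refine h1.trans ?_
    gcongr ?_ + ?_
    · exact (hc j).2.2.2.1
    · refine le_trans ?_ (sigma_le hp (hc j))
      calc ((K j + 1 : ℕ) : ℝ≥0∞) ^ 2 * ∫⁻ u, hth (1 / ((p j).1 : ℝ)) u ∂(nu (rt p) (kp p))
          = 1 * (((K j + 1 : ℕ) : ℝ≥0∞) ^ 2 *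
            ∫⁻ u, hth (1 / ((p j).1 : ℝ)) u ∂(nu (rt p) (kp p))) := (one_mul _).symm
        _ ≤ _ := by
            gcongr
            exact one_le_pow₀ le_add_self
  · calc ∫⁻ b, ((nb b (K j + 1) : ℕ) : ℝ≥0∞)⁻¹ ∂(BG (rt p) (kp p) (GE j)ᶜ)
        ≤ ∫⁻ _, 1 ∂(BG (rt p) (kp p) (GE j)ᶜ) :=
          lintegral_mono fun b => inv_nb_le_one b (by omega)
      _ = envLaw (rt p) (kp p) (GE j)ᶜ := by rw [lintegral_one, BG_univ h.prob]
      _ ≤ _ := GE_compl_le hp j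

/-! ### The failures -/

theorem eps_le {j N K M : ℕ} (h : Cond p j N K M) : ((M : ℝ) + 1) / (p j).2 ≤ 1 / 2 := by
  have h1 := h.2.2.2.2.2.2
  have h2 : eta j * rho j ≤ 1 := by
    have := eta_le_one j
    have := (rho_lt j).le
    have := (rho_pos j).le
    have := (eta_pos j).le
    nlinarith
  linarith

theorem kill_p (hp : ∀ j, Step p j (p j)) {j N K M : ℕ} (h : Cond p j N K M) :
    (1 - envLaw (rt p) (kp p) (GE j)) * ENNReal.ofReal (1 - ((M : ℝ) + 1) / (p j).2) ≤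
      BB (rt p) (kp p) {b | ∀ i ≤ M, b i = 0} := by
  have hy := hyp_p hp
  have := prob_envLaw (c := rt p) hy.prob
  rw [← prob_compl_eq_one_sub (meas_GE j)]
  refine kill_BB hy (meas_GE j).compl ?_
  filter_upwards [ae_sizes hp] with e he hE
  have he' : ¬ ∀ i, j ≤ i → e.1 (2 * i + 1) = 0 := hE
  push Not at he'
  obtain ⟨i, hi, hne⟩ := he'
  refine ⟨(2 * i + 1, 0), ?_, ?_⟩
  · show 0 < e.1 (2 * i + 1)
    omega
  · rw [he]
    have hB := B_ge hp j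
    have hBi : ((p j).2 : ℝ) ≤ (p i).2 := by exact_mod_cast mono_B hp hi
    have h1 : 1 / ((p i).2 : ℝ) ≤ 1 / (p j).2 := one_div_le_one_div_of_le (by linarith) hBi
    have h2 : 1 / ((p j).2 : ℝ) ≤ 1 / 2 := one_div_le_one_div_of_le (by norm_num) hB
    have h3 : 0 < 1 / ((p i).2 : ℝ) := by
      have : (0 : ℝ) < (p i).2 := by linarith
      positivity
    rw [show ((2 * i + 1, 0) : Name).1 = 2 * i + 1 from rfl, sz_odd]
    refine le_trans ?_ (atom_kill (by linarith) (by linarith) M)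
    rw [← ENNReal.ofReal_pow (by linarith)]
    refine ENNReal.ofReal_le_ofReal ?_
    have h4 := one_add_mul_le_pow (a := -(1 / ((p j).2 : ℝ))) (by linarith) (M + 1)
    calc 1 - ((M : ℝ) + 1) / (p j).2 = 1 + ((M + 1 : ℕ) : ℝ) * (-(1 / ((p j).2 : ℝ))) := by
          push_cast; ring
      _ ≤ (1 + -(1 / ((p j).2 : ℝ))) ^ (M + 1) := h4
      _ ≤ (1 - 1 / ((p i).2 : ℝ)) ^ (M + 1) := by
          apply pow_le_pow_left₀ <;> linarith

theorem kill_ne (hp : ∀ j, Step p j (p j)) {j N K M : ℕ} (h : Cond p j N K M) :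
    BB (rt p) (kp p) {b | ∀ i ≤ M, b i = 0} ≠ 0 := by
  have h1 := kill_p hp h
  intro h0
  rw [h0] at h1
  have h2 := le_antisymm h1 zero_le
  rcases mul_eq_zero.1 h2 with h3 | h3
  · have h4 := GE_le hp j
    have h5 : ENNReal.ofReal (Real.exp (-rr j)) < 1 := by
      rw [← ENNReal.ofReal_one]
      refine (ENNReal.ofReal_lt_ofReal_iff (by norm_num)).2 ?_
      have := rho_pos j
      unfold rho at this
      linarith
    have h6 := tsub_pos_of_lt (lt_of_le_of_lt h4 h5)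
    exact h6.ne' h3
  · rw [ENNReal.ofReal_eq_zero] at h3
    have := eps_le h
    linarith

/-- The deficit on the good event. -/
theorem good_deficit (hp : ∀ j, Step p j (p j)) {j N K M : ℕ} (h : Cond p j N K M) {K' : ℕ}
    (hK' : 2 * j ≤ K') :
    ∫⁻ e in GE j, ZZ (Measure.sum (iter (BB (rt p) (kp p)))) K M (szs e K')
      ∂(envLaw (rt p) (kp p)) ≤ ENNReal.ofReal (4 * eta j) := by
  have hy := hyp_p hp
  have := prob_envLaw (c := rt p) hy.prob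
  set s := envLaw (rt p) (kp p) (GE j) with hs
  have h1 := ZZ_good hy hK' (good_sizes hp j) (meas_GE j) h.1 N
  rw [← hs] at h1
  have hx : Real.exp (-rr j) = 1 - rho j := by unfold rho; ring
  have h2 := num_ennreal (N := N) (GE_le hp j) (Real.exp_pos _).le (rho_pos j) hx.le
    (ε := ((M : ℝ) + 1) / (p j).2) (by positivity) (eps_le h) h.2.2.2.2.2.2 h.2.1 (kill_p hp h)
  rw [← hs] at h2
  have h3 : ∑ n ∈ Finset.range N, (iter (BB (cc (rt p) (2 * j)) (kk (kp p) (2 * j))) (n + 1)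
        {g | nb g (K + 1) ≤ 2} + (n + 1 : ℕ) * (((K + 1 : ℕ) : ℝ≥0∞) ^ 2 *
          ∫⁻ u, hth (1 / ((p j).1 : ℝ)) u ∂(nu (rt p) (kp p)))) ≤
      ENNReal.ofReal (2 * eta j) := by
    rw [Finset.sum_add_distrib]
    have e1 : ENNReal.ofReal (2 * eta j) = ENNReal.ofReal (eta j) + ENNReal.ofReal (eta j) := by
      rw [← ENNReal.ofReal_add (eta_pos j).le (eta_pos j).le]; congr 1; ring
    rw [e1]
    refine add_le_add h.2.2.1 (le_trans ?_ (sigma_le hp h))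
    rw [← Finset.sum_mul]
    gcongr
    calc ∑ n ∈ Finset.range N, ((n + 1 : ℕ) : ℝ≥0∞) ≤ ∑ _n ∈ Finset.range N, ((N : ℝ≥0∞) + 1) := by
          refine Finset.sum_le_sum fun n hn => ?_
          rw [Finset.mem_range] at hn
          have : n + 1 ≤ N + 1 := by omega
          exact_mod_cast this
      _ = (N : ℝ≥0∞) * (N + 1) := by
          simp
          ring
      _ ≤ _ := by rw [sq]; gcongr; exact le_self_add
  have h4 := h1.trans (add_le_add h2 h3)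
  have hfin : ∑ n ∈ Finset.range N, s ^ (n + 1) ≠ ∞ :=
    ENNReal.sum_ne_top.2 fun n _ => ENNReal.pow_ne_top (measure_ne_top _ _)
  have h5 : ∫⁻ e in GE j, ZZ (Measure.sum (iter (BB (rt p) (kp p)))) K M (szs e K')
      ∂(envLaw (rt p) (kp p)) + ∑ n ∈ Finset.range N, s ^ (n + 1) ≤
      ENNReal.ofReal (4 * eta j) + ∑ n ∈ Finset.range N, s ^ (n + 1) := by
    refine h4.trans (le_of_eq ?_)
    have e1 : ENNReal.ofReal (4 * eta j) =
        ENNReal.ofReal (2 * eta j) + ENNReal.ofReal (2 * eta j) := by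
      rw [← ENNReal.ofReal_add (by linarith [eta_pos j]) (by linarith [eta_pos j])]
      congr 1; ring
    rw [e1]
    ring
  exact (ENNReal.add_le_add_iff_right hfin).1 h5

theorem pow_facts (j : ℕ) :
    ENNReal.ofReal (eta j) ≤ (2 : ℝ≥0∞)⁻¹ ^ j ∧
    (2 : ℝ≥0∞) ^ j * ENNReal.ofReal (4 * eta j) ≤ 4 * (2 : ℝ≥0∞)⁻¹ ^ j ∧
    (2 : ℝ≥0∞) ^ j * (8 : ℝ≥0∞)⁻¹ ^ j ≤ (2 : ℝ≥0∞)⁻¹ ^ j := by
  have e2 : (2 : ℝ≥0∞)⁻¹ = ENNReal.ofReal (1 / 2) := by
    rw [one_div, ENNReal.ofReal_inv_of_pos (by norm_num)]; simp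
  have e8 : (8 : ℝ≥0∞)⁻¹ = ENNReal.ofReal (1 / 8) := by
    rw [one_div, ENNReal.ofReal_inv_of_pos (by norm_num)]; simp
  have e3 : (2 : ℝ≥0∞) = ENNReal.ofReal 2 := by simp
  have e4 : (4 : ℝ≥0∞) = ENNReal.ofReal 4 := by simp
  refine ⟨?_, ?_, ?_⟩
  · rw [e2, ← ENNReal.ofReal_pow (by norm_num)]
    refine ENNReal.ofReal_le_ofReal ?_
    unfold eta
    gcongr
    norm_num
  · rw [e2, ← ENNReal.ofReal_pow (by norm_num)]
    nth_rewrite 1 [e3]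
    rw [e4, ← ENNReal.ofReal_pow (by norm_num), ← ENNReal.ofReal_mul (by positivity),
      ← ENNReal.ofReal_mul (by positivity)]
    refine ENNReal.ofReal_le_ofReal ?_
    unfold eta
    have h1 : (2 : ℝ) ^ j * (4 * (1 / 16) ^ j) = 4 * (2 * (1 / 16)) ^ j := by
      rw [mul_pow]; ring
    rw [h1]
    gcongr
    norm_num
  · rw [← mul_pow]
    gcongr
    rw [e2, e8, e3, ← ENNReal.ofReal_mul (by norm_num)]
    refine ENNReal.ofReal_le_ofReal ?_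
    norm_num

theorem measurable_phi (S : Measure (ℕ → ℕ)) [SFinite S] (q : ℝ≥0∞) (sz : ℕ → ℝ)
    (KK MM : ℕ → ℕ) (K k : ℕ) : Measurable fun e : Env => phi S q sz KK MM (szs e K) k := by
  unfold phi
  split_ifs
  · exact measurable_const
  · exact (measurable_const.add (((measurable_ZZ S _ _ K).min measurable_const).const_mul _)).add
      measurable_const

theorem even_bound (hp : ∀ j, Step p j (p j)) {KK MM NN : ℕ → ℕ}
    (hc : ∀ j, Cond p j (NN j) (KK j) (MM j)) {q : ℝ≥0∞} (j : ℕ) {K' : ℕ} (hK' : 2 * j < K') :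
    ∫⁻ e, (e.1 (2 * j) : ℝ≥0∞) * phi (Measure.sum (iter (BB (rt p) (kp p)))) q (sz p) KK MM
      (szs e K') (2 * j) ∂(envLaw (rt p) (kp p)) ≤ (5 * q⁻¹ + 4) * (2 : ℝ≥0∞)⁻¹ ^ j := by
  have hy := hyp_p hp
  have := prob_envLaw (c := rt p) hy.prob
  have := prob_BB (c := rt p) hy.prob
  set S := Measure.sum (iter (BB (rt p) (kp p))) with hS
  have hA := A_ge hp j
  have hA0 : 0 < (p j).1 := lt_of_lt_of_le (by norm_num) (hp j).1.1
  have hmod : (2 * j) % 2 = 0 := by omega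
  have hdiv : (2 * j) / 2 = j := by omega
  obtain ⟨hf1, hf2, hf3⟩ := pow_facts j
  set A : ℝ≥0∞ := ((p j).1 : ℝ≥0∞) with hAdef
  have hAne : A ≠ 0 := by rw [hAdef]; simp; omega
  have hAtop : A ≠ ∞ := by rw [hAdef]; simp
  set t : ℝ≥0∞ := 2 ^ j * A with ht
  have ht0 : t ≠ 0 := mul_ne_zero (by simp) hAne
  have htt : t ≠ ∞ := ENNReal.mul_ne_top (by simp) hAtop
  let m : Env → ℝ≥0∞ := fun e => min (ZZ S (KK j) (MM j) (szs e K')) q⁻¹
  have hm : Measurable m := (measurable_ZZ S _ _ K').min measurable_const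
  have hmint : ∫⁻ e, m e ∂(envLaw (rt p) (kp p)) ≤
      ENNReal.ofReal (4 * eta j) + q⁻¹ * (8 : ℝ≥0∞)⁻¹ ^ j := by
    rw [← lintegral_add_compl m (meas_GE j)]
    gcongr ?_ + ?_
    · exact (lintegral_mono fun e => min_le_left _ _).trans (good_deficit hp (hc j) (by omega))
    · calc ∫⁻ e in (GE j)ᶜ, m e ∂(envLaw (rt p) (kp p))
          ≤ ∫⁻ _ in (GE j)ᶜ, q⁻¹ ∂(envLaw (rt p) (kp p)) :=
            lintegral_mono fun e => min_le_right _ _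
        _ = q⁻¹ * envLaw (rt p) (kp p) (GE j)ᶜ := by
            rw [lintegral_const, Measure.restrict_apply_univ]
        _ ≤ _ := by gcongr; exact GE_compl_le hp j
  have hcount := count_mul_le (c := rt p) hy.prob (2 * j) ht0 htt hm (B := q⁻¹)
    (fun e => min_le_right _ _)
  rw [rt_even] at hcount
  have hN : ∫⁻ e, (e.1 (2 * j) : ℝ≥0∞) ∂(envLaw (rt p) (kp p)) = A := by
    have h1 := lintegral_count (c := rt p) hy.prob (2 * j) (fun n => (n : ℝ≥0∞))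
    rw [poisson_mean, rt_even] at h1
    rw [h1, hAdef]
    simp
  have hphi : ∀ e : Env, phi S q (sz p) KK MM (szs e K') (2 * j) =
      KK j * A⁻¹ ^ 2 * q⁻¹ + A⁻¹ * m e +
        A⁻¹ * ENNReal.ofReal (1 - 1 / ((p j).1 : ℝ)) ^ (MM j + 1) * q⁻¹ := by
    intro e
    unfold phi
    rw [hmod, hdiv, if_neg (by norm_num), sz_even, ofReal_inv_nat hA0]
  set w := ENNReal.ofReal (1 - 1 / ((p j).1 : ℝ)) ^ (MM j + 1) with hw
  have hwle : w ≤ (2 : ℝ≥0∞)⁻¹ ^ j := by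
    have h2 : 1 / ((p j).1 : ℝ) ≤ 1 / 3 := one_div_le_one_div_of_le (by norm_num) hA
    rw [hw, ← ENNReal.ofReal_pow (by linarith)]
    exact (ENNReal.ofReal_le_ofReal (hc j).2.2.2.2.2.1).trans hf1
  have hKA : (KK j : ℝ≥0∞) * A⁻¹ ≤ (2 : ℝ≥0∞)⁻¹ ^ j := by
    refine le_trans ?_ hf1
    rw [hAdef, ← ofReal_inv_nat hA0, ← ENNReal.ofReal_natCast, ← ENNReal.ofReal_mul (by positivity)]
    refine ENNReal.ofReal_le_ofReal ?_
    rw [mul_one_div, div_le_iff₀ (by linarith)]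
    refine le_trans ?_ (hc j).2.2.2.2.1
    have h3 : (0 : ℝ) ≤ KK j := Nat.cast_nonneg _
    have h4 : (0 : ℝ) ≤ NN j := Nat.cast_nonneg _
    have h5 : (1 : ℝ) ≤ ((NN j : ℝ) + 1) ^ 2 := one_le_pow₀ (by linarith)
    have h6 : (KK j : ℝ) ≤ ((KK j : ℝ) + 1) ^ 2 * 2 := by nlinarith
    calc (KK j : ℝ) ≤ ((KK j : ℝ) + 1) ^ 2 * 2 := h6
      _ = ((KK j : ℝ) + 1) ^ 2 * 2 * 1 := (mul_one _).symm
      _ ≤ _ := by gcongr
  have hmeas1 : Measurable fun e : Env => (e.1 (2 * j) : ℝ≥0∞) :=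
    (measurable_of_countable (fun n : ℕ => (n : ℝ≥0∞))).comp
      ((measurable_pi_apply (2 * j)).comp measurable_fst)
  have hexp : ∫⁻ e, (e.1 (2 * j) : ℝ≥0∞) * phi S q (sz p) KK MM (szs e K') (2 * j)
      ∂(envLaw (rt p) (kp p)) =
      A * (KK j * A⁻¹ ^ 2 * q⁻¹) +
      A⁻¹ * ∫⁻ e, (e.1 (2 * j) : ℝ≥0∞) * m e ∂(envLaw (rt p) (kp p)) +
      A * (A⁻¹ * w * q⁻¹) := by
    have e1 : ∀ e : Env, (e.1 (2 * j) : ℝ≥0∞) * phi S q (sz p) KK MM (szs e K') (2 * j) =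
        (e.1 (2 * j) : ℝ≥0∞) * (KK j * A⁻¹ ^ 2 * q⁻¹) +
        A⁻¹ * ((e.1 (2 * j) : ℝ≥0∞) * m e) + (e.1 (2 * j) : ℝ≥0∞) * (A⁻¹ * w * q⁻¹) := by
      intro e
      rw [hphi]; ring
    simp_rw [e1]
    have hmm : Measurable fun e : Env => (e.1 (2 * j) : ℝ≥0∞) * m e := hmeas1.mul hm
    rw [lintegral_add_right _ (hmeas1.mul_const _), lintegral_add_left (hmeas1.mul_const _),
      lintegral_mul_const _ hmeas1, lintegral_mul_const _ hmeas1,
      lintegral_const_mul _ hmm, hN]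
  rw [hexp]
  have hAA : A * A⁻¹ = 1 := ENNReal.mul_inv_cancel hAne hAtop
  have p1 : A * (KK j * A⁻¹ ^ 2 * q⁻¹) ≤ (2 : ℝ≥0∞)⁻¹ ^ j * q⁻¹ := by
    calc A * (KK j * A⁻¹ ^ 2 * q⁻¹) = (A * A⁻¹) * (KK j * A⁻¹) * q⁻¹ := by ring
      _ ≤ _ := by rw [hAA, one_mul]; gcongr
  have p3 : A * (A⁻¹ * w * q⁻¹) ≤ (2 : ℝ≥0∞)⁻¹ ^ j * q⁻¹ := by
    calc A * (A⁻¹ * w * q⁻¹) = (A * A⁻¹) * w * q⁻¹ := by ring
      _ ≤ _ := by rw [hAA, one_mul]; gcongr
  have p2 : A⁻¹ * ∫⁻ e, (e.1 (2 * j) : ℝ≥0∞) * m e ∂(envLaw (rt p) (kp p)) ≤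
      (4 * (2 : ℝ≥0∞)⁻¹ ^ j + q⁻¹ * (2 : ℝ≥0∞)⁻¹ ^ j) + 2 * (2 : ℝ≥0∞)⁻¹ ^ j * q⁻¹ := by
    have h1 : A⁻¹ * ∫⁻ e, (e.1 (2 * j) : ℝ≥0∞) * m e ∂(envLaw (rt p) (kp p)) ≤
        A⁻¹ * (t * (ENNReal.ofReal (4 * eta j) + q⁻¹ * (8 : ℝ≥0∞)⁻¹ ^ j) +
          (A ^ 2 + A) / t * q⁻¹) := by
      gcongr
      refine hcount.trans ?_
      have e2 : ((((p j).1 : ℝ≥0)) : ℝ≥0∞) = A := by rw [hAdef]; simp
      rw [e2]
      gcongr
    refine h1.trans ?_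
    rw [mul_add]
    gcongr ?_ + ?_
    · calc A⁻¹ * (t * (ENNReal.ofReal (4 * eta j) + q⁻¹ * (8 : ℝ≥0∞)⁻¹ ^ j))
          = (A * A⁻¹) * (2 ^ j * ENNReal.ofReal (4 * eta j) +
            q⁻¹ * (2 ^ j * (8 : ℝ≥0∞)⁻¹ ^ j)) := by rw [ht]; ring
        _ ≤ _ := by rw [hAA, one_mul]; gcongr
    · have h2 : A ^ 2 + A ≤ 2 * A ^ 2 := by
        have : (1 : ℝ≥0∞) ≤ A := by rw [hAdef]; exact_mod_cast hA0
        calc A ^ 2 + A = A ^ 2 + A * 1 := by rw [mul_one]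
          _ ≤ A ^ 2 + A * A := by gcongr
          _ = 2 * A ^ 2 := by ring
      calc A⁻¹ * ((A ^ 2 + A) / t * q⁻¹) ≤ A⁻¹ * (2 * A ^ 2 / t * q⁻¹) := by gcongr
        _ = 2 * (A * A⁻¹) * (A * t⁻¹) * q⁻¹ := by rw [div_eq_mul_inv]; ring
        _ = 2 * (2 : ℝ≥0∞)⁻¹ ^ j * q⁻¹ := by
            rw [hAA, mul_one, ht, ENNReal.mul_inv (Or.inl (by simp)) (Or.inl (by simp))]
            have : A * ((2 ^ j)⁻¹ * A⁻¹) = (2 ^ j)⁻¹ * (A * A⁻¹) := by ring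
            rw [this, hAA, mul_one, ENNReal.inv_pow]
        _ ≤ _ := le_rfl
  calc A * (KK j * A⁻¹ ^ 2 * q⁻¹) +
      A⁻¹ * ∫⁻ e, (e.1 (2 * j) : ℝ≥0∞) * m e ∂(envLaw (rt p) (kp p)) + A * (A⁻¹ * w * q⁻¹)
      ≤ (2 : ℝ≥0∞)⁻¹ ^ j * q⁻¹ +
        ((4 * (2 : ℝ≥0∞)⁻¹ ^ j + q⁻¹ * (2 : ℝ≥0∞)⁻¹ ^ j) + 2 * (2 : ℝ≥0∞)⁻¹ ^ j * q⁻¹) +
        (2 : ℝ≥0∞)⁻¹ ^ j * q⁻¹ := add_le_add (add_le_add p1 p2) p3
    _ = _ := by ring

theorem odd_bound (hp : ∀ j, Step p j (p j)) (KK MM : ℕ → ℕ) {q : ℝ≥0∞} (j K' : ℕ) :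
    ∫⁻ e, (e.1 (2 * j + 1) : ℝ≥0∞) * phi (Measure.sum (iter (BB (rt p) (kp p)))) q (sz p) KK MM
      (szs e K') (2 * j + 1) ∂(envLaw (rt p) (kp p)) ≤
      (((1 / 8 : ℝ≥0) ^ (j + 1) : ℝ≥0) : ℝ≥0∞) * q⁻¹ := by
  have hy := hyp_p hp
  have hmod : (2 * j + 1) % 2 = 1 := by omega
  have h1 := lintegral_count (c := rt p) hy.prob (2 * j + 1) (fun n => (n : ℝ≥0∞) * q⁻¹)
  have h0 : ∫⁻ n : ℕ, (n : ℝ≥0∞) * q⁻¹ ∂(poissonMeasure (rt p (2 * j + 1))) =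
      (rt p (2 * j + 1) : ℝ≥0∞) * q⁻¹ := by
    rw [lintegral_mul_const _ (measurable_of_countable _), poisson_mean]
  rw [h0, rt_odd] at h1
  rw [← h1]
  refine lintegral_mono fun e => ?_
  unfold phi
  rw [hmod, if_pos rfl]
  gcongr
  have h2 : ENNReal.ofReal (sz p (2 * j + 1)) ≤ 1 := by
    rw [ENNReal.ofReal_le_one, sz_odd]
    have : 0 ≤ 1 / ((p j).2 : ℝ) := by positivity
    linarith
  calc ENNReal.ofReal (sz p (2 * j + 1)) * q⁻¹ ≤ 1 * q⁻¹ := by gcongr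
    _ = _ := one_mul _

theorem fail_p (hp : ∀ j, Step p j (p j)) :
    failMass (Measure.sum (iter (BB (rt p) (kp p)))) (BB (rt p) (kp p)) ≠ ∞ := by
  have hy := hyp_p hp
  have := prob_envLaw (c := rt p) hy.prob
  have := prob_BB (c := rt p) hy.prob
  have hC : ∀ j, ∃ N K M, Cond p j N K M := fun j => (hp j).2.2.2
  choose NN KK MM hc using hC
  set S := Measure.sum (iter (BB (rt p) (kp p))) with hS
  set q := pc (BB (rt p) (kp p)) with hq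
  have hq0 : q ≠ 0 := pc_BB hy (nu_p_one hp) (nu_p_ne hp)
  have hqt : q ≠ ∞ := measure_ne_top _ _
  have hn := nice_BB hy
  have hnS : Nice S := Nice.sum fun n => iter_nice hn n
  have hTB : TB S q := tb_sum hn
  have hfinS : ∀ j, S {g | 2 ≤ nb g (MM j + 1)} ≠ ∞ := fun j =>
    ne_top_of_le_ne_top (ENNReal.inv_ne_top.2 (kill_ne hp (hc j))) (sum_kill hn (MM j))
  let X : ℝ≥0∞ := ∑' j : ℕ, (5 * q⁻¹ + 4) * (2 : ℝ≥0∞)⁻¹ ^ j +
    ∑' j : ℕ, (((1 / 8 : ℝ≥0) ^ (j + 1) : ℝ≥0) : ℝ≥0∞) * q⁻¹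
  have hX : X ≠ ∞ := by
    refine ENNReal.add_ne_top.2 ⟨?_, ?_⟩
    · rw [ENNReal.tsum_mul_left, ENNReal.tsum_geometric, ENNReal.one_sub_inv_two, inv_inv]
      refine ENNReal.mul_ne_top (ENNReal.add_ne_top.2 ⟨ENNReal.mul_ne_top (by simp)
        (ENNReal.inv_ne_top.2 hq0), by simp⟩) (by simp)
    · rw [ENNReal.tsum_mul_right]
      exact ENNReal.mul_ne_top tsum_eighth (ENNReal.inv_ne_top.2 hq0)
  refine ne_top_of_le_ne_top hX (failMass_BB_le hy fun K' => ?_)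
  have hmeasN : ∀ k, Measurable fun e : Env => (e.1 k : ℝ≥0∞) := fun k =>
    (measurable_of_countable (fun n : ℕ => (n : ℝ≥0∞))).comp
      ((measurable_pi_apply k).comp measurable_fst)
  have h1 : ∀ᵐ e ∂(envLaw (rt p) (kp p)), failMass S (comps (szs e K')) ≤
      ∑' k, (e.1 k : ℝ≥0∞) * (if k < K' then phi S q (sz p) KK MM (szs e K') k else 0) := by
    filter_upwards [ae_sizes hp] with e he
    exact window_fail hnS hTB hq0 hqt (fun k => by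
      have := sz_mem (p := p) (k := k) (hp _).1
      exact ⟨this.1.le, this.2.le⟩) (fun j => (hc j).1) hfinS (fun a _ => he a) K'
  refine (lintegral_mono_ae h1).trans ?_
  rw [lintegral_tsum fun k => ?_]
  swap
  · refine Measurable.aemeasurable ((hmeasN k).mul ?_)
    by_cases hk : k < K'
    · simp only [hk, if_true]
      exact measurable_phi S q (sz p) KK MM K' k
    · simp only [hk, if_false]
      exact measurable_const
  rw [← tsum_even_add_odd (f := fun k => ∫⁻ e, (e.1 k : ℝ≥0∞) *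
    (if k < K' then phi S q (sz p) KK MM (szs e K') k else 0) ∂(envLaw (rt p) (kp p)))
    ENNReal.summable ENNReal.summable]
  refine add_le_add (ENNReal.tsum_le_tsum fun j => ?_) (ENNReal.tsum_le_tsum fun j => ?_)
  · by_cases hk : 2 * j < K'
    · simp only [hk, if_true]
      exact even_bound hp hc j hk
    · simp only [hk, if_false, mul_zero, lintegral_zero]
      exact zero_le
  · by_cases hk : 2 * j + 1 < K'
    · simp only [hk, if_true]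
      exact odd_bound hp KK MM j K'
    · simp only [hk, if_false, mul_zero, lintegral_zero]
      exact zero_le

/-- The example has no infinite sequence of Eves. -/
theorem no_eves_p (hp : ∀ j, Step p j (p j)) :
    ¬ ∀ᵐ ω ∂(fvLaw (rt p) (kp p)), HasEves ω.1 ω.2 :=
  no_eves_of (hyp_p hp) (nu_p_one hp) (nu_p_ne hp) (surj_p hp) (fail_p hp)

end Pool.Agent.Helper97.LD
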