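import Pool.Agent.Helper97.LD.Window

/-!
# A finer bound for the failures at one atom
-/

set_option autoImplicit false

namespace Pool.Agent.Helper97.LD

open MeasureTheory ProbabilityTheory Filter
open scoped ENNReal NNReal Topology

theorem meas_le_nb (r m : ℕ) : MeasurableSet {g : ℕ → ℕ | r ≤ nb g m} :=
  measurableSet_le measurable_const (measurable_nb m)

theorem meas_single (m i : ℕ) : MeasurableSet {g : ℕ → ℕ | ∀ j ≤ m, (g j ≠ g 0 ↔ j = i)} := by
  refine measurableSet_of_dep (m + 1) _ ?_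
  intro g g' hg h j hj
  rw [← hg j (by omega), ← hg 0 (by omega)]
  exact h j hj

theorem mdd_eq {S : Measure (ℕ → ℕ)} (h : ExK S) (m : ℕ) :
    (m : ℝ≥0∞) * dd S m =
      S (⋃ i ∈ Finset.Icc 1 m, {g | ∀ j ≤ m, (g j ≠ g 0 ↔ j = i)}) := by
  rw [measure_biUnion_finset]
  · have : ∀ i ∈ Finset.Icc 1 m, S {g | ∀ j ≤ m, (g j ≠ g 0 ↔ j = i)} = dd S m := by
      intro i hi
      rw [Finset.mem_Icc] at hi
      exact single_rest h hi.1 hi.2
    rw [Finset.sum_congr rfl this]
    simp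
  · intro i hi i' hi' hne
    rw [Function.onFun, Set.disjoint_left]
    intro g hg hg'
    have hi2 : i ≤ m := (Finset.mem_Icc.1 hi).2
    have h1 : g i ≠ g 0 := (hg i hi2).2 rfl
    exact hne ((hg' i hi2).1 h1)
  · exact fun i _ => meas_single m i

theorem mdd_add_le {S : Measure (ℕ → ℕ)} (h : Nice S) {K M m : ℕ} (hK : K ≤ m) (hM : m ≤ M) :
    (m : ℝ≥0∞) * dd S m + S {g | 3 ≤ nb g (K + 1)} ≤ S {g | 2 ≤ nb g (M + 1)} := by
  have h1 : ∀ᵐ g ∂S, g ∈ {g : ℕ → ℕ | Seg g} := h.seg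
  rw [mdd_eq h.ex, ← measure_inter_add_sdiff
    (⋃ i ∈ Finset.Icc 1 m, {g : ℕ → ℕ | ∀ j ≤ m, (g j ≠ g 0 ↔ j = i)}) measurableSet_seg]
  have h0 : S ((⋃ i ∈ Finset.Icc 1 m, {g : ℕ → ℕ | ∀ j ≤ m, (g j ≠ g 0 ↔ j = i)}) \
      {g | Seg g}) = 0 := by
    refine measure_mono_null ?_ (show S {g | Seg g}ᶜ = 0 from h1)
    intro g hg
    exact hg.2
  rw [h0, add_zero, ← measure_union]
  · apply measure_mono_ae
    filter_upwards [h.seg] with g hg hmem
    rcases hmem with h2 | h2
    · have h3 := h2.1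
      simp only [Set.mem_iUnion] at h3
      obtain ⟨i, hi, h4⟩ := h3
      rw [Finset.mem_Icc] at hi
      have h5 : g i ≠ g 0 := (h4 i hi.2).2 rfl
      have h6 := lt_nb_of_lt g (show i < M + 1 by omega)
      rw [hg.zero] at h5
      show 2 ≤ nb g (M + 1)
      omega
    · have h3 : 3 ≤ nb g (K + 1) := h2
      have h4 := nb_mono g (show K + 1 ≤ M + 1 by omega)
      show 2 ≤ nb g (M + 1)
      omega
  · rw [Set.disjoint_left]
    rintro g ⟨h2, h3⟩ h4
    have hs : Seg g := h3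
    simp only [Set.mem_iUnion] at h2
    obtain ⟨i, hi, h5⟩ := h2
    have h4' : 3 ≤ nb g (K + 1) := h4
    obtain ⟨y, hy, ey⟩ := (hs.lt_nb_iff (K + 1) 1).1 (by omega)
    obtain ⟨z, hz, ez⟩ := (hs.lt_nb_iff (K + 1) 2).1 (by omega)
    have e1 := (h5 y (by omega)).1 (by rw [ey, hs.zero]; omega)
    have e2 := (h5 z (by omega)).1 (by rw [ez, hs.zero]; omega)
    rw [e1] at ey
    rw [e2] at ez
    omega
  · exact meas_le_nb _ _

theorem failMass_le_tsum {S : Measure (ℕ → ℕ)} (hS : ExK S) {u : ℝ} (h0 : 0 ≤ u) (h1 : u ≤ 1) :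
    failMass S (atom u) ≤ ∑' m : ℕ, (m * dd S m) *
      (ENNReal.ofReal u ^ 2 * ENNReal.ofReal (1 - u) ^ m) := by
  classical
  set v := ENNReal.ofReal u with hv
  set w := ENNReal.ofReal (1 - u) with hw
  unfold failMass
  refine (lintegral_mono fun g => atom_fail h0 h1 g).trans ?_
  have hm1 : ∀ m : ℕ, ∀ i ∈ Finset.Icc 1 m, Measurable
      ({g : ℕ → ℕ | ∀ j ≤ m, (g j ≠ g 0 ↔ j = i)}.indicator
        (fun _ => v ^ 2 * w ^ m)) := fun m i _ => measurable_const.indicator (meas_single m i)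
  rw [lintegral_tsum fun m => (Finset.measurable_fun_sum _ (hm1 m)).aemeasurable]
  refine ENNReal.tsum_le_tsum fun m => ?_
  rw [lintegral_finsetSum _ (hm1 m)]
  have : ∀ i ∈ Finset.Icc 1 m, ∫⁻ g, {g : ℕ → ℕ | ∀ j ≤ m, (g j ≠ g 0 ↔ j = i)}.indicator
        (fun _ => v ^ 2 * w ^ m) g ∂S = dd S m * (v ^ 2 * w ^ m) := by
    intro i hi
    rw [Finset.mem_Icc] at hi
    rw [lintegral_indicator_const (meas_single m i), single_rest hS hi.1 hi.2, mul_comm]
  rw [Finset.sum_congr rfl this]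
  simp [mul_assoc]

theorem geom_vw {u : ℝ} (h0 : 0 ≤ u) (h1 : u ≤ 1) :
    ENNReal.ofReal u ^ 2 * (1 - ENNReal.ofReal (1 - u))⁻¹ = ENNReal.ofReal u := by
  set v := ENNReal.ofReal u with hv
  set w := ENNReal.ofReal (1 - u) with hw
  rcases h0.eq_or_lt with hu | hu
  · have hv0 : v = 0 := by rw [hv, ← hu]; simp
    rw [hv0]; simp
  · have hw' : 1 - w = v := by
      rw [hw, hv, ← ENNReal.ofReal_one, ← ENNReal.ofReal_sub _ (by linarith)]
      congr 1; ring
    rw [hw', sq, mul_assoc, ENNReal.mul_inv_cancel (by simp [hv, hu]) (by simp [hv]), mul_one]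

/-- The finer bound for the failures at one atom. -/
theorem atom_failMass_fine {S : Measure (ℕ → ℕ)} {q Z : ℝ≥0∞} (hS : ExK S) (hT : TB S q)
    {u : ℝ} (h0 : 0 ≤ u) (h1 : u ≤ 1) {K M : ℕ}
    (hZ : ∀ m, K ≤ m → m ≤ M → (m : ℝ≥0∞) * dd S m ≤ Z) :
    failMass S (atom u) ≤ K * ENNReal.ofReal u ^ 2 * q⁻¹ + ENNReal.ofReal u * min Z q⁻¹ +
      ENNReal.ofReal u * ENNReal.ofReal (1 - u) ^ (M + 1) * q⁻¹ := by
  classical
  refine (failMass_le_tsum hS h0 h1).trans ?_
  have hgeo := geom_vw h0 h1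
  set v := ENNReal.ofReal u with hv
  set w := ENNReal.ofReal (1 - u) with hw
  have hw1 : w ≤ 1 := by rw [hw, ENNReal.ofReal_le_one]; linarith
  have hTq : ∀ m : ℕ, (m : ℝ≥0∞) * dd S m ≤ q⁻¹ := by
    intro m
    rcases Nat.eq_zero_or_pos m with hm | hm
    · subst hm; simp
    · rw [ENNReal.le_inv_iff_mul_le]
      calc (m : ℝ≥0∞) * dd S m * q = m * q * dd S m := by ring
        _ ≤ 1 := hT m hm
  have hterm : ∀ m : ℕ, (m * dd S m) * (v ^ 2 * w ^ m) ≤
      (if m < K then v ^ 2 * q⁻¹ else 0) + min Z q⁻¹ * (v ^ 2 * w ^ m) +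
        (if M < m then v ^ 2 * w ^ m * q⁻¹ else 0) := by
    intro m
    by_cases hK : m < K
    · rw [if_pos hK]
      refine le_trans ?_ (le_self_add.trans le_self_add)
      calc (m * dd S m) * (v ^ 2 * w ^ m) ≤ q⁻¹ * (v ^ 2 * 1) := by
            gcongr
            · exact hTq m
            · exact pow_le_one' hw1 m
        _ = v ^ 2 * q⁻¹ := by ring
    · by_cases hM : M < m
      · rw [if_pos hM]
        refine le_trans ?_ le_add_self
        calc (m * dd S m) * (v ^ 2 * w ^ m) ≤ q⁻¹ * (v ^ 2 * w ^ m) := by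
              gcongr
              exact hTq m
          _ = v ^ 2 * w ^ m * q⁻¹ := by ring
      · refine le_trans ?_ (le_add_self.trans le_self_add)
        gcongr
        exact le_min (hZ m (by omega) (by omega)) (hTq m)
  refine (ENNReal.tsum_le_tsum hterm).trans ?_
  rw [ENNReal.tsum_add, ENNReal.tsum_add]
  gcongr ?_ + ?_ + ?_
  · rw [tsum_eq_sum (s := Finset.range K) (fun m hm => by
      rw [if_neg]; simpa using hm)]
    rw [Finset.sum_congr rfl fun m hm => if_pos (Finset.mem_range.1 hm)]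
    simp [mul_assoc]
  · rw [ENNReal.tsum_mul_left, ENNReal.tsum_mul_left, ENNReal.tsum_geometric, hgeo, mul_comm]
  · have e1 : ∑' m : ℕ, (if M < m then v ^ 2 * w ^ m * q⁻¹ else 0) =
        ∑' m : ℕ, v ^ 2 * w ^ (m + (M + 1)) * q⁻¹ := by
      have h2 := Summable.sum_add_tsum_nat_add' (f := fun m : ℕ =>
        (if M < m then v ^ 2 * w ^ m * q⁻¹ else 0)) (k := M + 1) ENNReal.summable
      rw [← h2, Finset.sum_eq_zero (fun m hm => by
        rw [Finset.mem_range] at hm
        rw [if_neg (by omega)]), zero_add]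
      refine tsum_congr fun m => ?_
      rw [if_pos (by omega)]
    rw [e1]
    have e2 : ∀ m : ℕ, v ^ 2 * w ^ (m + (M + 1)) * q⁻¹ = (v ^ 2 * w ^ m) * (w ^ (M + 1) * q⁻¹) := by
      intro m; ring
    rw [tsum_congr e2, ENNReal.tsum_mul_right, ENNReal.tsum_mul_left, ENNReal.tsum_geometric, hgeo]
    apply le_of_eq
    ring

/-! ### Composition diminishes the number of blocks -/

theorem cmp_nb_le {S C : Measure (ℕ → ℕ)} [SFinite S] [IsProbabilityMeasure C]
    (hC : ∀ᵐ b ∂C, Seg b) (r m : ℕ) :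
    cmp S C {g | r ≤ nb g m} ≤ S {g | r ≤ nb g m} := by
  rw [cmp_apply _ _ (meas_le_nb r m)]
  calc ∫⁻ b, S {g | g ∘ b ∈ {g | r ≤ nb g m}} ∂C ≤ ∫⁻ _, S {g | r ≤ nb g m} ∂C := by
        refine lintegral_mono_ae ?_
        filter_upwards [hC] with b hb
        refine measure_mono fun g hg => ?_
        simp only [Set.mem_ofPred_eq] at hg ⊢
        rw [nb_comp g hb] at hg
        exact hg.trans (nb_mono g (hb.nb_le m))
    _ = _ := by simp

theorem comps_append (l l' : List ℝ) : comps (l ++ l') = cmp (comps l) (comps l') := by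
  induction l with
  | nil => simp only [List.nil_append, comps, dirac_cmp]
  | cons u l ih => simp only [List.cons_append, comps, ih, cmp_assoc]

theorem comps_fail_names (s : Name → ℝ) (φ : Name → ℝ≥0∞) (l : List Name) :
    ∀ {S : Measure (ℕ → ℕ)} [SFinite S],
      (∀ pre a post, l = pre ++ a :: post →
        failMass (cmp S (comps (pre.map s))) (atom (s a)) ≤ φ a) →
      failMass S (comps (l.map s)) ≤ (l.map φ).sum := by
  induction l with
  | nil =>
    intro S _ _
    simp only [List.map_nil, comps, List.sum_nil]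
    rw [failMass_dirac]
  | cons a l ih =>
    intro S _ h
    simp only [comps, List.map_cons, List.sum_cons]
    refine (failMass_comp (comps_nice (l.map s)).seg inferInstance).trans ?_
    refine add_le_add ?_ (ih fun pre b post e => ?_)
    · have := h [] a l rfl
      simpa only [List.map_nil, comps, cmp_dirac] using this
    · have := h (a :: pre) b post (by rw [e]; rfl)
      simpa only [List.map_cons, comps, cmp_assoc] using this

end Pool.Agent.Helper97.LD
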