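import Pool.Agent.Helper97.LE.Cut

/-!
# Iterated windows without the rare atoms
-/

set_option autoImplicit false

namespace Pool.Agent.Helper97.LD

open MeasureTheory ProbabilityTheory Filter
open scoped ENNReal NNReal Topology

theorem cmp_mono {μ μ' C C' : Measure (ℕ → ℕ)} [SFinite μ] [SFinite μ'] [SFinite C] [SFinite C']
    (h1 : μ ≤ μ') (h2 : C ≤ C') : cmp μ C ≤ cmp μ' C' := by
  rw [Measure.le_iff]
  intro s hs
  rw [cmp_apply _ _ hs, cmp_apply _ _ hs]
  exact lintegral_mono' h2 fun b => h1 _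

instance iter_sfinite (C : Measure (ℕ → ℕ)) [SFinite C] (n : ℕ) : SFinite (iter C n) := by
  induction n with
  | zero => unfold iter; infer_instance
  | succ n ih => unfold iter; infer_instance

theorem iter_mono {C C' : Measure (ℕ → ℕ)} [SFinite C] [SFinite C'] (h : C ≤ C') (n : ℕ) :
    iter C n ≤ iter C' n := by
  induction n with
  | zero => exact le_rfl
  | succ n ih => exact cmp_mono ih h

theorem iter_univ (C : Measure (ℕ → ℕ)) [SFinite C] (n : ℕ) :
    iter C n Set.univ = (C Set.univ) ^ n := by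
  induction n with
  | zero => simp [iter]
  | succ n ih =>
    simp only [iter]
    rw [cmp_apply _ _ MeasurableSet.univ]
    simp only [Set.mem_univ, Set.ofPred_true, lintegral_const, ih]
    rw [pow_succ]

theorem meas_nb_le (r m : ℕ) : MeasurableSet {g : ℕ → ℕ | nb g m ≤ r} :=
  measurableSet_le (measurable_nb m) measurable_const

theorem cmp_nb_le_apply {μ C : Measure (ℕ → ℕ)} [SFinite μ] [SFinite C] (hC : ∀ᵐ b ∂C, Seg b)
    (r m : ℕ) : cmp μ C {g | nb g m ≤ r} = ∫⁻ b, μ {g | nb g (nb b m) ≤ r} ∂C := by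
  rw [cmp_apply _ _ (meas_nb_le r m)]
  refine lintegral_congr_ae ?_
  filter_upwards [hC] with b hb
  simp only [nb_comp _ hb]

theorem cmp_le_nb_apply {μ C : Measure (ℕ → ℕ)} [SFinite μ] [SFinite C] (hC : ∀ᵐ b ∂C, Seg b)
    (r m : ℕ) : cmp μ C {g | r ≤ nb g m} = ∫⁻ b, μ {g | r ≤ nb g (nb b m)} ∂C := by
  rw [cmp_apply _ _ (meas_le_nb r m)]
  refine lintegral_congr_ae ?_
  filter_upwards [hC] with b hb
  simp only [nb_comp _ hb]

theorem iter_cut {CG C' : Measure (ℕ → ℕ)} [IsFiniteMeasure CG] [IsProbabilityMeasure C']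
    (hs : ∀ᵐ b ∂CG, Seg b) (hs' : ∀ᵐ b ∂C', Seg b) (h1 : CG Set.univ ≤ 1) {σ : ℝ≥0∞} {y : ℕ}
    (h : ∀ φ : (ℕ → ℕ) → ℝ≥0∞, (∀ g g', (∀ x < y + 1, g x = g' x) → φ g = φ g') →
      (∀ g, φ g ≤ 1) → ∫⁻ b, φ b ∂CG ≤ ∫⁻ b, φ b ∂C' + σ) (n : ℕ) :
    ∀ k ≤ y + 1, iter CG n {g | nb g k ≤ 2} ≤ iter C' n {g | nb g k ≤ 2} + n * σ := by
  induction n with
  | zero => intro k _; simp [iter]
  | succ n ih =>
    intro k hk
    simp only [iter]
    rw [cmp_nb_le_apply hs, cmp_nb_le_apply hs']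
    have h2 : ∀ᵐ b ∂CG, iter CG n {g | nb g (nb b k) ≤ 2} ≤
        iter C' n {g | nb g (nb b k) ≤ 2} + n * σ := by
      filter_upwards [hs] with b hb
      exact ih _ ((hb.nb_le k).trans hk)
    refine (lintegral_mono_ae h2).trans ?_
    rw [lintegral_add_right _ measurable_const, lintegral_const]
    have h3 := h (fun b => iter C' n {g | nb g (nb b k) ≤ 2}) (fun g g' hg => by
      simp only [nb_congr (m := k) fun x hx => hg x (by omega)]) (fun g => prob_le_one)
    calc ∫⁻ b, iter C' n {g | nb g (nb b k) ≤ 2} ∂CG + n * σ * CG Set.univ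
        ≤ (∫⁻ b, iter C' n {g | nb g (nb b k) ≤ 2} ∂C' + σ) + n * σ * 1 := by gcongr
      _ = _ := by push_cast; ring

/-! ### The time until the low levels are one block -/

theorem meas_kill (M : ℕ) : MeasurableSet {b : ℕ → ℕ | ∀ j ≤ M, b j = 0} := by
  refine measurableSet_of_dep (M + 1) _ ?_
  intro g g' hg h j hj
  rw [← hg j (by omega)]
  exact h j hj

theorem nb_kill {b : ℕ → ℕ} {M : ℕ} (h : ∀ j ≤ M, b j = 0) : nb b (M + 1) ≤ 1 := by
  unfold nb
  refine Finset.sup_le fun j hj => ?_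
  rw [Finset.mem_range] at hj
  rw [h j (by omega)]

theorem iter_kill {C : Measure (ℕ → ℕ)} [IsProbabilityMeasure C] (hn : Nice C) (M n : ℕ) :
    iter C n {g | 2 ≤ nb g (M + 1)} ≤ (1 - C {b | ∀ j ≤ M, b j = 0}) ^ n := by
  induction n with
  | zero => simpa using prob_le_one
  | succ n ih =>
    simp only [iter]
    rw [cmp_le_nb_apply hn.seg]
    have h1 : ∀ᵐ b ∂C, iter C n {g | 2 ≤ nb g (nb b (M + 1))} ≤
        {b : ℕ → ℕ | ∀ j ≤ M, b j = 0}ᶜ.indicator
          (fun _ => (1 - C {b | ∀ j ≤ M, b j = 0}) ^ n) b := by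
      filter_upwards [hn.seg] with b hb
      by_cases hk : ∀ j ≤ M, b j = 0
      · rw [Set.indicator_of_notMem
          (show b ∉ {b : ℕ → ℕ | ∀ j ≤ M, b j = 0}ᶜ from fun h' => h' hk)]
        have h2 : ∀ᵐ g ∂(iter C n), g ∉ {g : ℕ → ℕ | 2 ≤ nb g (nb b (M + 1))} := by
          filter_upwards [(iter_nice hn n).seg] with g hg h3
          have h4 := nb_mono g (nb_kill hk)
          have h5 := hg.nb_le 1
          have h3' : 2 ≤ nb g (nb b (M + 1)) := h3
          omega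
        rw [measure_eq_zero_iff_ae_notMem.2 h2]
      · rw [Set.indicator_of_mem (show b ∈ {b : ℕ → ℕ | ∀ j ≤ M, b j = 0}ᶜ from hk)]
        refine le_trans (measure_mono fun g hg => ?_) ih
        have h3 : 2 ≤ nb g (nb b (M + 1)) := hg
        exact h3.trans (nb_mono g (hb.nb_le (M + 1)))
    refine (lintegral_mono_ae h1).trans ?_
    rw [lintegral_indicator_const (meas_kill M).compl, prob_compl_eq_one_sub (meas_kill M),
      pow_succ]

theorem sum_kill {C : Measure (ℕ → ℕ)} [IsProbabilityMeasure C] (hn : Nice C) (M : ℕ) :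
    Measure.sum (iter C) {g | 2 ≤ nb g (M + 1)} ≤ (C {b | ∀ j ≤ M, b j = 0})⁻¹ := by
  rw [Measure.sum_apply _ (meas_le_nb 2 (M + 1))]
  refine (ENNReal.tsum_le_tsum fun n => iter_kill hn M n).trans ?_
  rw [ENNReal.tsum_geometric, ENNReal.sub_sub_cancel ENNReal.one_ne_top prob_le_one]

/-! ### The mean time with at least three blocks among few levels -/

/-- The mean number of the past windows with at least three blocks. -/
noncomputable def YY (S : Measure (ℕ → ℕ)) (K : ℕ) (l : List ℝ) : ℝ≥0∞ :=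
  cmp S (comps l) {g | 3 ≤ nb g (K + 1)}

theorem YY_eq (S : Measure (ℕ → ℕ)) [SFinite S] (K : ℕ) (l : List ℝ) :
    YY S K l = ∫⁻ b, S {g | g ∘ b ∈ {g | 3 ≤ nb g (K + 1)}} ∂(comps l) := by
  unfold YY
  rw [cmp_apply _ _ (meas_le_nb 3 (K + 1))]

variable {c : ℕ → ℝ≥0} {κ : ℕ → Measure ℝ}

theorem measurable_YY (S : Measure (ℕ → ℕ)) [SFinite S] (K K' : ℕ) :
    Measurable fun e : Env => YY S K (szs e K') := by
  simp_rw [YY_eq]
  exact measurable_comps_szs
    (measurable_measure_prodMk_right (measurable_comp (meas_le_nb 3 (K + 1)))) K'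

theorem seg_BG (h : Hyp c κ) (G : Set Env) : ∀ᵐ b ∂(BG c κ G), Seg b :=
  (Measure.absolutelyContinuous_of_le (BG_le G)).ae_le (nice_BB h).seg

theorem low_YY (h : Hyp c κ) {J K' : ℕ} (hK : J ≤ K') {G : Set Env} {θ : ℝ}
    (hGθ : ∀ᵐ e ∂(envLaw c κ), e ∈ G → ∀ a, present e a → J ≤ a.1 → e.2.2 a ≤ θ)
    (hG : MeasurableSet G) (K N : ℕ) :
    ∑ n ∈ Finset.range N, (envLaw c κ G) ^ (n + 1) ≤
      ∫⁻ e in G, YY (Measure.sum (iter (BB c κ))) K (szs e K') ∂(envLaw c κ) +
      ∑ n ∈ Finset.range N, (iter (BB (cc c J) (kk κ J)) (n + 1) {g | nb g (K + 1) ≤ 2} +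
        (n + 1 : ℕ) * (((K + 1 : ℕ) : ℝ≥0∞) ^ 2 * ∫⁻ u, hth θ u ∂(nu c κ))) := by
  have := prob_envLaw (c := c) h.prob
  have := prob_BB (c := c) h.prob
  have := prob_BB (c := cc c J) (h.cut J).prob
  have := fin_BG (c := c) h.prob G
  set C := BB c κ with hC
  set CG := BG c κ G with hCG
  set C' := BB (cc c J) (kk κ J) with hC'
  set σ := ((K + 1 : ℕ) : ℝ≥0∞) ^ 2 * ∫⁻ u, hth θ u ∂(nu c κ) with hσ
  have hseg := seg_BG h G
  have hseg' := (nice_BB (h.cut J)).seg
  have huniv : CG Set.univ = envLaw c κ G := BG_univ h.prob G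
  have huniv1 : CG Set.univ ≤ 1 := by rw [huniv]; exact prob_le_one
  have hcut : ∀ φ : (ℕ → ℕ) → ℝ≥0∞, (∀ g g', (∀ x < K + 1, g x = g' x) → φ g = φ g') →
      (∀ g, φ g ≤ 1) → ∫⁻ b, φ b ∂CG ≤ ∫⁻ b, φ b ∂C' + σ :=
    fun φ hφ hφ1 => BG_cut h hGθ K hφ hφ1 hG
  have hit := iter_cut hseg hseg' huniv1 hcut
  have hle : CG ≤ C := BG_le G
  -- one summand
  have key : ∀ n, (envLaw c κ G) ^ (n + 1) ≤
      ∫⁻ e in G, cmp (iter C n) (comps (szs e K')) {g | 3 ≤ nb g (K + 1)} ∂(envLaw c κ) +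
      (iter C' (n + 1) {g | nb g (K + 1) ≤ 2} + (n + 1 : ℕ) * σ) := by
    intro n
    -- the bad part
    have hbad : ∫⁻ e in G, ∫⁻ b, iter CG n {g | nb g (nb b (K + 1)) ≤ 2} ∂(comps (szs e K'))
        ∂(envLaw c κ) ≤ iter C' (n + 1) {g | nb g (K + 1) ≤ 2} + (n + 1 : ℕ) * σ := by
      have hd : ∀ g g' : ℕ → ℕ, (∀ x < K + 1, g x = g' x) →
          (fun b : ℕ → ℕ => iter CG n {g | nb g (nb b (K + 1)) ≤ 2}) g =
          (fun b : ℕ → ℕ => iter CG n {g | nb g (nb b (K + 1)) ≤ 2}) g' := by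
        intro g g' hg
        simp only [nb_congr hg]
      have h1 : ∀ b : ℕ → ℕ, iter CG n {g | nb g (nb b (K + 1)) ≤ 2} ≤ 1 := by
        intro b
        refine (measure_mono (Set.subset_univ _)).trans ?_
        rw [iter_univ]
        exact pow_le_one' huniv1 n
      refine (cut_le h hK hGθ K hd h1 hG).trans ?_
      have h2 : ∫⁻ b, iter CG n {g | nb g (nb b (K + 1)) ≤ 2} ∂C' ≤
          ∫⁻ b, (iter C' n {g | nb g (nb b (K + 1)) ≤ 2} + n * σ) ∂C' := by
        refine lintegral_mono_ae ?_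
        filter_upwards [hseg'] with b hb
        exact hit n _ (hb.nb_le _)
      rw [lintegral_add_right _ measurable_const, lintegral_const, measure_univ, mul_one] at h2
      have h4 : cmp (iter C' n) C' {g | nb g (K + 1) ≤ 2} =
          ∫⁻ b, iter C' n {g | nb g (nb b (K + 1)) ≤ 2} ∂C' := cmp_nb_le_apply hseg' 2 (K + 1)
      rw [← h4] at h2
      calc ∫⁻ b, iter CG n {g | nb g (nb b (K + 1)) ≤ 2} ∂C' + σ
          ≤ (cmp (iter C' n) C' {g | nb g (K + 1) ≤ 2} + n * σ) + σ := by gcongr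
        _ = iter C' (n + 1) {g | nb g (K + 1) ≤ 2} + (n + 1 : ℕ) * σ := by
            simp only [iter]
            push_cast
            ring
    have hsum : ∀ b : ℕ → ℕ, iter CG n {g | 3 ≤ nb g (nb b (K + 1))} +
        iter CG n {g | nb g (nb b (K + 1)) ≤ 2} = (envLaw c κ G) ^ n := by
      intro b
      rw [← measure_union]
      · have : {g : ℕ → ℕ | 3 ≤ nb g (nb b (K + 1))} ∪ {g | nb g (nb b (K + 1)) ≤ 2} =
            Set.univ := by
          ext g
          simp only [Set.mem_union, Set.mem_ofPred_eq, Set.mem_univ, iff_true]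
          omega
        rw [this, iter_univ, huniv]
      · rw [Set.disjoint_left]
        intro g h3 h4
        have h3' : 3 ≤ nb g (nb b (K + 1)) := h3
        have h4' : nb g (nb b (K + 1)) ≤ 2 := h4
        omega
      · exact meas_nb_le _ _
    have hgood : ∀ e, ∫⁻ b, iter CG n {g | 3 ≤ nb g (nb b (K + 1))} ∂(comps (szs e K')) ≤
        cmp (iter C n) (comps (szs e K')) {g | 3 ≤ nb g (K + 1)} := by
      intro e
      rw [cmp_le_nb_apply (comps_nice _).seg]
      exact lintegral_mono fun b => iter_mono hle n _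
    have hm1 : Measurable fun b : ℕ → ℕ => iter CG n {g | 3 ≤ nb g (nb b (K + 1))} :=
      measurable_of_dep (K + 1) _ fun g g' hg => by simp only [nb_congr hg]
    have hm2 : Measurable fun b : ℕ → ℕ => iter CG n {g | nb g (nb b (K + 1)) ≤ 2} :=
      measurable_of_dep (K + 1) _ fun g g' hg => by simp only [nb_congr hg]
    calc (envLaw c κ G) ^ (n + 1)
        = ∫⁻ e in G, ∫⁻ b, (iter CG n {g | 3 ≤ nb g (nb b (K + 1))} +
          iter CG n {g | nb g (nb b (K + 1)) ≤ 2}) ∂(comps (szs e K')) ∂(envLaw c κ) := by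
          simp only [hsum, lintegral_const, measure_univ, mul_one, Measure.restrict_apply_univ]
          rw [pow_succ]
      _ = ∫⁻ e in G, ∫⁻ b, iter CG n {g | 3 ≤ nb g (nb b (K + 1))} ∂(comps (szs e K'))
            ∂(envLaw c κ) +
          ∫⁻ e in G, ∫⁻ b, iter CG n {g | nb g (nb b (K + 1)) ≤ 2} ∂(comps (szs e K'))
            ∂(envLaw c κ) := by
          simp_rw [lintegral_add_left hm1]
          rw [lintegral_add_left (measurable_comps_szs hm1 K')]
      _ ≤ _ := add_le_add (lintegral_mono hgood) hbad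
  -- sum up
  have hY : ∀ e, YY (Measure.sum (iter C)) K (szs e K') =
      ∑' n, cmp (iter C n) (comps (szs e K')) {g | 3 ≤ nb g (K + 1)} := by
    intro e
    unfold YY
    rw [cmp_sum, Measure.sum_apply _ (meas_le_nb 3 (K + 1))]
  have hmc : ∀ n, Measurable fun e : Env =>
      cmp (iter C n) (comps (szs e K')) {g | 3 ≤ nb g (K + 1)} := fun n =>
    measurable_YY (iter C n) K K'
  calc ∑ n ∈ Finset.range N, (envLaw c κ G) ^ (n + 1)
      ≤ ∑ n ∈ Finset.range N,
        (∫⁻ e in G, cmp (iter C n) (comps (szs e K')) {g | 3 ≤ nb g (K + 1)} ∂(envLaw c κ) +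
        (iter C' (n + 1) {g | nb g (K + 1) ≤ 2} + (n + 1 : ℕ) * σ)) :=
        Finset.sum_le_sum fun n _ => key n
    _ = ∑ n ∈ Finset.range N,
        ∫⁻ e in G, cmp (iter C n) (comps (szs e K')) {g | 3 ≤ nb g (K + 1)} ∂(envLaw c κ) +
        ∑ n ∈ Finset.range N, (iter C' (n + 1) {g | nb g (K + 1) ≤ 2} + (n + 1 : ℕ) * σ) :=
        Finset.sum_add_distrib
    _ ≤ _ := by
        gcongr
        rw [← lintegral_finsetSum _ fun n _ => hmc n]
        refine lintegral_mono fun e => ?_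
        rw [hY]
        exact ENNReal.sum_le_tsum _

end Pool.Agent.Helper97.LD
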