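import Pool.Agent.Helper97.LE.Fin
import Pool.Agent.Helper97.LD.Final

/-!
# The regime of the example
-/

set_option autoImplicit false

namespace Pool.Agent.Helper97.LD

open MeasureTheory ProbabilityTheory Filter Pool.Agent.R946.LF
open scoped ENNReal NNReal Topology

/-- `Ψ(q) = ∫ (e^(-q u) - 1 + q u) ν(du)`, where `ν(du) = u⁻² Λ(du)`. -/
noncomputable def Psi (L : Measure ℝ) (q : ℝ) : ℝ≥0∞ :=
  ∫⁻ u, ENNReal.ofReal (Real.exp (-(q * u)) - 1 + q * u) ∂(nuOf L)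

/-- The regime Intensive infinity: `Λ` is a finite measure on `[0, 1]` with `Λ({0}) = 0`,
`∫ u ν(du) = ∞` and `∫^∞ dq / Ψ(q) = ∞`, where `ν(du) = u⁻² Λ(du)`. -/
def IntensiveInf (L : Measure ℝ) : Prop :=
  IsFiniteMeasure L ∧ L (Set.Icc 0 1)ᶜ = 0 ∧ L {0} = 0 ∧
    ∫⁻ u, ENNReal.ofReal u ∂(nuOf L) = ∞ ∧ ∀ a : ℝ, ∫⁻ q in Set.Ioi a, (Psi L q)⁻¹ = ∞

variable {p : ℕ → ℕ × ℕ}

/-- The measure of the example. -/
noncomputable def Lp (p : ℕ → ℕ × ℕ) : Measure ℝ :=
  atomic (fun k => (rt p k : ℝ) * sz p k ^ 2) (sz p)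

theorem rt_pos (hp : ∀ j, Step p j (p j)) (k : ℕ) : 0 < (rt p k : ℝ) := by
  unfold rt
  split_ifs
  · simp
  · have := (hp (k / 2)).1.1
    have h : (0 : ℝ) < (p (k / 2)).1 := by
      have : 0 < (p (k / 2)).1 := by omega
      exact_mod_cast this
    simpa using h

theorem sz_pos (hp : ∀ j, Step p j (p j)) (k : ℕ) : 0 < sz p k ∧ sz p k < 1 :=
  sz_mem (hp _).1

theorem nuOf_Lp (hp : ∀ j, Step p j (p j)) : nuOf (Lp p) = nu (rt p) (kp p) := by
  unfold Lp
  rw [nuOf_atomic _ _ (rt_pos hp) (sz_pos hp)]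
  unfold atomic nu kp
  congr 1
  funext k
  rw [ENNReal.ofReal_coe_nnreal]

theorem Lp_apply (p : ℕ → ℕ × ℕ) {s : Set ℝ} (hs : MeasurableSet s) (h : ∀ k, sz p k ∉ s) :
    Lp p s = 0 := by
  unfold Lp atomic
  rw [Measure.sum_apply _ hs, ENNReal.tsum_eq_zero]
  intro k
  rw [Measure.smul_apply, Measure.dirac_apply' _ hs, Set.indicator_of_notMem (h k), smul_zero]

theorem fin_Lp (hp : ∀ j, Step p j (p j)) : IsFiniteMeasure (Lp p) := by
  refine ⟨?_⟩
  have h1 : Lp p Set.univ = ∫⁻ u, ENNReal.ofReal u ^ 2 ∂(nu (rt p) (kp p)) := by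
    have h2 : ∫⁻ _, 1 ∂(Lp p) = Lp p Set.univ := lintegral_one
    rw [← h2]
    unfold Lp
    rw [lintegral_atomic _ _ _ measurable_const]
    unfold nu
    rw [lintegral_sum_measure]
    refine tsum_congr fun k => ?_
    rw [lintegral_smul_measure, smul_eq_mul]
    unfold kp
    rw [lintegral_dirac' _ (ENNReal.measurable_ofReal.pow_const 2), mul_one,
      ENNReal.ofReal_mul (rt_pos hp k).le, ENNReal.ofReal_coe_nnreal,
      ENNReal.ofReal_pow (sz_pos hp k).1.le]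
  rw [h1]
  exact lt_top_iff_ne_top.2 (hyp_p hp).fin

theorem exp_le_one_add {x : ℝ} (hx : 0 ≤ x) :
    Real.exp (-x) - 1 + x ≤ x ∧ Real.exp (-x) - 1 + x ≤ x ^ 2 := by
  have h1 : Real.exp (-x) ≤ 1 := Real.exp_le_one_iff.2 (by linarith)
  refine ⟨by linarith, ?_⟩
  have h2 : Real.exp (-x) ≤ 1 / (1 + x) := by
    rw [Real.exp_neg, inv_eq_one_div]
    exact one_div_le_one_div_of_le (by linarith) (by linarith [Real.add_one_le_exp x])
  have h3 : 1 / (1 + x) ≤ 1 - x + x ^ 2 := by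
    rw [div_le_iff₀ (by linarith)]
    nlinarith [mul_nonneg (mul_nonneg hx hx) hx]
  linarith

theorem tsum_eighth_le : ∑' j : ℕ, (((1 / 8 : ℝ≥0) ^ (j + 1) : ℝ≥0) : ℝ≥0∞) ≤ 1 := by
  have h1 : ∀ j : ℕ, (((1 / 8 : ℝ≥0) ^ (j + 1) : ℝ≥0) : ℝ≥0∞) = (8 : ℝ≥0∞)⁻¹ ^ j * 8⁻¹ := by
    intro j
    rw [ENNReal.coe_pow, pow_succ]
    have e1 : ((1 / 8 : ℝ≥0) : ℝ≥0∞) = 8⁻¹ := by
      rw [one_div, ENNReal.coe_inv (by norm_num)]; rfl
    rw [e1]
  rw [tsum_congr h1, ENNReal.tsum_mul_right, ENNReal.tsum_geometric]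
  have h5 : (1 - (8 : ℝ≥0∞)⁻¹)⁻¹ ≤ 8 := by
    rw [ENNReal.inv_le_iff_inv_le]
    refine ENNReal.le_sub_of_add_le_right (by simp) ?_
    rw [← ENNReal.toReal_le_toReal (by simp) (by simp), ENNReal.toReal_add (by simp) (by simp)]
    norm_num
  calc (1 - (8 : ℝ≥0∞)⁻¹)⁻¹ * 8⁻¹ ≤ 8 * 8⁻¹ := by gcongr
    _ = 1 := ENNReal.mul_inv_cancel (by norm_num) (by norm_num)

theorem Psi_le (hp : ∀ j, Step p j (p j)) (j : ℕ) {q : ℝ} (hq1 : 1 ≤ q)
    (hq : q ^ 2 ≤ (p j).1) : Psi (Lp p) q ≤ ENNReal.ofReal (((j : ℝ) + 3) * q) := by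
  unfold Psi
  have hq0 : 0 ≤ q := by linarith
  have hf : Measurable fun u : ℝ => ENNReal.ofReal (Real.exp (-(q * u)) - 1 + q * u) := by
    fun_prop
  rw [nuOf_Lp hp, lintegral_nup _ hf]
  have hA := A_ge hp
  have hB := B_ge hp
  -- the odd part
  have hodd : ∑' i : ℕ, (((1 / 8 : ℝ≥0) ^ (i + 1) : ℝ≥0) : ℝ≥0∞) *
      ENNReal.ofReal (Real.exp (-(q * (1 - 1 / ((p i).2 : ℝ)))) - 1 +
        q * (1 - 1 / ((p i).2 : ℝ))) ≤ ENNReal.ofReal q := by
    have h1 : ∀ i : ℕ, (((1 / 8 : ℝ≥0) ^ (i + 1) : ℝ≥0) : ℝ≥0∞) *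
      ENNReal.ofReal (Real.exp (-(q * (1 - 1 / ((p i).2 : ℝ)))) - 1 +
        q * (1 - 1 / ((p i).2 : ℝ))) ≤
        (((1 / 8 : ℝ≥0) ^ (i + 1) : ℝ≥0) : ℝ≥0∞) * ENNReal.ofReal q := by
      intro i
      gcongr
      have h2 : 1 / ((p i).2 : ℝ) ≤ 1 / 2 := one_div_le_one_div_of_le (by norm_num) (hB i)
      have h3 : 0 ≤ 1 / ((p i).2 : ℝ) := by positivity
      refine (exp_le_one_add (mul_nonneg hq0 (by linarith))).1.trans ?_
      nlinarith
    refine (ENNReal.tsum_le_tsum h1).trans ?_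
    rw [ENNReal.tsum_mul_right]
    calc _ ≤ 1 * ENNReal.ofReal q := by gcongr; exact tsum_eighth_le
      _ = _ := one_mul _
  -- the even part
  have heven : ∑' i : ℕ, ((p i).1 : ℝ≥0∞) *
      ENNReal.ofReal (Real.exp (-(q * (1 / ((p i).1 : ℝ)))) - 1 + q * (1 / ((p i).1 : ℝ))) ≤
      ENNReal.ofReal ((j : ℝ) * q) + ENNReal.ofReal (2 * q) := by
    rw [← Summable.sum_add_tsum_nat_add' (k := j) ENNReal.summable]
    gcongr ?_ + ?_
    · have h1 : ∀ i ∈ Finset.range j, ((p i).1 : ℝ≥0∞) * ENNReal.ofReal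
          (Real.exp (-(q * (1 / ((p i).1 : ℝ)))) - 1 + q * (1 / ((p i).1 : ℝ))) ≤
          ENNReal.ofReal q := by
        intro i _
        have h2 := hA i
        rw [← ENNReal.ofReal_natCast, ← ENNReal.ofReal_mul (by positivity)]
        refine ENNReal.ofReal_le_ofReal ?_
        have h3 := (exp_le_one_add (x := q * (1 / ((p i).1 : ℝ))) (by positivity)).1
        calc ((p i).1 : ℝ) * (Real.exp (-(q * (1 / ((p i).1 : ℝ)))) - 1 + q * (1 / ((p i).1 : ℝ)))
            ≤ ((p i).1 : ℝ) * (q * (1 / ((p i).1 : ℝ))) := by gcongr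
          _ = q := by
              have : ((p i).1 : ℝ) ≠ 0 := by linarith
              field_simp
      refine (Finset.sum_le_sum h1).trans (le_of_eq ?_)
      rw [Finset.sum_const, Finset.card_range, nsmul_eq_mul, ENNReal.ofReal_mul (by positivity),
        ENNReal.ofReal_natCast]
    · have h1 : ∀ m : ℕ, ((p (m + j)).1 : ℝ≥0∞) * ENNReal.ofReal
          (Real.exp (-(q * (1 / ((p (m + j)).1 : ℝ)))) - 1 + q * (1 / ((p (m + j)).1 : ℝ))) ≤
          (2 : ℝ≥0∞)⁻¹ ^ m * ENNReal.ofReal q := by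
        intro m
        have h2 := hA (m + j)
        have h3 := hA j
        have h4 : (2 : ℝ) ^ m * (p j).1 ≤ (p (m + j)).1 := by
          have := grow hp j m
          rw [add_comm j m] at this
          exact_mod_cast this
        have e2 : (2 : ℝ≥0∞)⁻¹ = ENNReal.ofReal (1 / 2) := by
          rw [one_div, ENNReal.ofReal_inv_of_pos (by norm_num)]; simp
        rw [e2, ← ENNReal.ofReal_natCast, ← ENNReal.ofReal_mul (by positivity),
          ← ENNReal.ofReal_pow (by norm_num), ← ENNReal.ofReal_mul (by positivity)]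
        refine ENNReal.ofReal_le_ofReal ?_
        have h5 := (exp_le_one_add (x := q * (1 / ((p (m + j)).1 : ℝ))) (by positivity)).2
        have hne : ((p (m + j)).1 : ℝ) ≠ 0 := by linarith
        calc ((p (m + j)).1 : ℝ) *
            (Real.exp (-(q * (1 / ((p (m + j)).1 : ℝ)))) - 1 + q * (1 / ((p (m + j)).1 : ℝ)))
            ≤ ((p (m + j)).1 : ℝ) * (q * (1 / ((p (m + j)).1 : ℝ))) ^ 2 := by gcongr
          _ = q ^ 2 / (p (m + j)).1 := by field_simp
          _ ≤ (p j).1 / (2 ^ m * (p j).1) := by gcongr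
          _ = (1 / 2) ^ m := by
              have : ((p j).1 : ℝ) ≠ 0 := by linarith
              rw [one_div, inv_pow]
              field_simp
          _ = (1 / 2) ^ m * 1 := (mul_one _).symm
          _ ≤ (1 / 2) ^ m * q := by gcongr
      refine (ENNReal.tsum_le_tsum h1).trans ?_
      rw [ENNReal.tsum_mul_right, ENNReal.tsum_geometric, ENNReal.one_sub_inv_two, inv_inv,
        ENNReal.ofReal_mul (by norm_num)]
      apply le_of_eq
      congr 1
      simp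
  refine (add_le_add heven hodd).trans (le_of_eq ?_)
  rw [← ENNReal.ofReal_add (by positivity) (by positivity),
    ← ENNReal.ofReal_add (by positivity) (by positivity)]
  congr 1
  ring

theorem interval_ge {x y k : ℝ} (hx : 0 < x) (hk : 0 < k) (h : x * Real.exp k ≤ y) :
    1 ≤ ∫⁻ q in Set.Ioc x y, ENNReal.ofReal ((k * q)⁻¹) := by
  have hek : 1 < Real.exp k := Real.one_lt_exp_iff.2 hk
  have hxy : x ≤ y := by nlinarith
  have hy : 0 < y := by linarith
  have hint : IntervalIntegrable (fun q : ℝ => (k * q)⁻¹) volume x y := by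
    have h1 : IntervalIntegrable (fun q : ℝ => k⁻¹ * q⁻¹) volume x y := by
      refine IntervalIntegrable.const_mul ?_ _
      refine intervalIntegral.intervalIntegrable_inv (fun q hq => ?_) continuousOn_id
      rw [Set.uIcc_of_le hxy] at hq
      exact (lt_of_lt_of_le hx hq.1).ne'
    refine h1.congr ?_
    intro q _
    simp only [mul_inv]
  have h2 : ∫ q in Set.Ioc x y, (k * q)⁻¹ = k⁻¹ * Real.log (y / x) := by
    rw [← intervalIntegral.integral_of_le hxy]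
    simp only [mul_inv]
    rw [intervalIntegral.integral_const_mul, integral_inv_of_pos hx hy]
  have h3 := ofReal_integral_eq_lintegral_ofReal (μ := volume.restrict (Set.Ioc x y))
    (f := fun q : ℝ => (k * q)⁻¹)
    ((intervalIntegrable_iff_integrableOn_Ioc_of_le hxy).1 hint) (by
      refine (ae_restrict_iff' measurableSet_Ioc).2 (ae_of_all _ fun q hq => ?_)
      have : 0 < q := lt_trans hx hq.1
      show 0 ≤ (k * q)⁻¹
      positivity)
  rw [← h3, h2, ← ENNReal.ofReal_one]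
  refine ENNReal.ofReal_le_ofReal ?_
  have h4 : k ≤ Real.log (y / x) := by
    rw [Real.le_log_iff_exp_le (by positivity), le_div_iff₀ hx, mul_comm]
    exact h
  calc (1 : ℝ) = k⁻¹ * k := (inv_mul_cancel₀ hk.ne').symm
    _ ≤ _ := by gcongr

theorem Psi_int (hp : ∀ j, Step p j (p j)) (a : ℝ) :
    ∫⁻ q in Set.Ioi a, (Psi (Lp p) q)⁻¹ = ∞ := by
  have hA := A_ge hp
  -- a starting index
  obtain ⟨j₀, hj₀⟩ : ∃ j₀, a ≤ ((p j₀).1 : ℝ) := by
    obtain ⟨n, hn⟩ := exists_nat_ge a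
    refine ⟨n, hn.trans ?_⟩
    have h1 := grow hp 0 n
    rw [zero_add] at h1
    have h2 : n ≤ 2 ^ n := Nat.lt_two_pow_self.le
    have h3 : 1 ≤ (p 0).1 := le_trans (by norm_num) (hp 0).1.1
    have h4 : n ≤ (p n).1 := by nlinarith
    exact_mod_cast h4
  let I : ℕ → Set ℝ := fun m => Set.Ioc ((p (j₀ + m)).1 : ℝ) (√((p (j₀ + m + 1)).1 : ℝ))
  have hsqrt : ∀ j, √((p j).1 : ℝ) ≤ (p j).1 := by
    intro j
    rw [Real.sqrt_le_left (by linarith [hA j])]
    nlinarith [hA j]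
  have hmono : ∀ {i j : ℕ}, i ≤ j → ((p i).1 : ℝ) ≤ (p j).1 := by
    intro i j h
    rcases h.eq_or_lt with h | h
    · rw [h]
    · exact_mod_cast (lt_A hp h).le
  have hdisj : Pairwise (Function.onFun Disjoint I) := by
    have key : ∀ i j : ℕ, i < j → Disjoint (I i) (I j) := by
      intro i j hij
      rw [Set.disjoint_left]
      rintro u ⟨_, h6⟩ ⟨h7, _⟩
      have h8 := hsqrt (j₀ + i + 1)
      have h9 : ((p (j₀ + i + 1)).1 : ℝ) ≤ (p (j₀ + j)).1 := hmono (by omega)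
      linarith
    intro i j hij
    rcases lt_or_gt_of_ne hij with h | h
    · exact key i j h
    · exact (key j i h).symm
  have hsub : ⋃ m, I m ⊆ Set.Ioi a := by
    refine Set.iUnion_subset fun m u hu => ?_
    have h1 : ((p j₀).1 : ℝ) ≤ (p (j₀ + m)).1 := hmono (by omega)
    have h2 := hu.1
    show a < u
    linarith
  have hone : ∀ m, 1 ≤ ∫⁻ q in I m, (Psi (Lp p) q)⁻¹ := by
    intro m
    have hk : (0 : ℝ) < ((j₀ + m + 1 : ℕ) : ℝ) + 3 := by positivity
    have hstep := ((hp (j₀ + m + 1)).2.2.1 (j₀ + m) (by omega)).2.1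
    have hA1 := hA (j₀ + m)
    refine (interval_ge (x := ((p (j₀ + m)).1 : ℝ)) (y := √((p (j₀ + m + 1)).1 : ℝ))
      (k := ((j₀ + m + 1 : ℕ) : ℝ) + 3) (by linarith) hk ?_).trans ?_
    · have h1 : ((p (j₀ + m)).1 : ℝ) * 3 ^ (j₀ + m + 1 + 5) ≤ √((p (j₀ + m + 1)).1 : ℝ) := by
        apply Real.le_sqrt_of_sq_le
        rw [mul_pow, ← pow_mul, mul_comm _ 2, pow_mul]
        norm_num
        exact_mod_cast hstep
      refine le_trans ?_ h1
      gcongr
      calc Real.exp (((j₀ + m + 1 : ℕ) : ℝ) + 3) ≤ Real.exp ((j₀ + m + 1 + 5 : ℕ) : ℝ) := by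
            refine Real.exp_le_exp.2 ?_
            push_cast
            linarith
        _ = Real.exp 1 ^ (j₀ + m + 1 + 5) := by rw [← Real.exp_nat_mul, mul_one]
        _ ≤ _ := by
            gcongr
            exact (Real.exp_one_lt_d9.le).trans (by norm_num)
    · refine setLIntegral_mono' measurableSet_Ioc fun q hq => ?_
      have hq1 : 1 ≤ q := by linarith [hq.1]
      have h2 : q ^ 2 ≤ ((p (j₀ + m + 1)).1 : ℝ) := by
        have h3 := pow_le_pow_left₀ (by linarith : (0 : ℝ) ≤ q) hq.2 2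
        rwa [Real.sq_sqrt (by positivity)] at h3
      have h4 := Psi_le hp (j₀ + m + 1) hq1 h2
      rw [ENNReal.ofReal_inv_of_pos (by positivity)]
      exact ENNReal.inv_le_inv.2 h4
  have h1 : ∫⁻ q in ⋃ m, I m, (Psi (Lp p) q)⁻¹ = ∞ := by
    rw [lintegral_iUnion (fun m => measurableSet_Ioc) hdisj]
    refine top_unique ?_
    calc (∞ : ℝ≥0∞) = ∑' _ : ℕ, (1 : ℝ≥0∞) :=
          (ENNReal.tsum_const_eq_top_of_ne_zero one_ne_zero).symm
      _ ≤ _ := ENNReal.tsum_le_tsum hone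
  exact top_unique (h1 ▸ lintegral_mono_set hsub)

theorem splits_Lp (hp : ∀ j, Step p j (p j)) : Splits (Lp p) (rt p) (kp p) where
  prob := (hyp_p hp).prob
  supp := (hyp_p hp).supp
  eq := nuOf_Lp hp

theorem regime_Lp (hp : ∀ j, Step p j (p j)) : IntensiveInf (Lp p) := by
  refine ⟨fin_Lp hp, ?_, ?_, ?_, Psi_int hp⟩
  · refine Lp_apply p measurableSet_Icc.compl fun k hk => ?_
    have := sz_pos hp k
    exact hk ⟨this.1.le, this.2.le⟩
  · refine Lp_apply p (measurableSet_singleton 0) fun k hk => ?_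
    exact (sz_pos hp k).1.ne' hk
  · rw [nuOf_Lp hp]
    exact nu_p_size hp

theorem one_Lp (hp : ∀ j, Step p j (p j)) : Lp p {1} = 0 :=
  Lp_apply p (measurableSet_singleton 1) fun k hk => (sz_pos hp k).2.ne hk

end Pool.Agent.Helper97.LD
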