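import Pool.Agent.Helper97.LE.Iter2

/-!
# The total failure mass of a window
-/

set_option autoImplicit false

namespace Pool.Agent.Helper97.LD

open MeasureTheory ProbabilityTheory Filter
open scoped ENNReal NNReal Topology

variable {c : ℕ → ℝ≥0} {κ : ℕ → Measure ℝ}

theorem failMass_BB_le (h : Hyp c κ) {S : Measure (ℕ → ℕ)} [SFinite S] {X : ℝ≥0∞}
    (hX : ∀ K, ∫⁻ e, failMass S (comps (szs e K)) ∂(envLaw c κ) ≤ X) :
    failMass S (BB c κ) ≤ X := by
  have := prob_windowLaw (c := c) h.prob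
  have := prob_envLaw (c := c) h.prob
  have := prob_BB (c := c) h.prob
  have hψ : Measurable fun b : ℕ → ℕ => S {g | Fail g b} :=
    measurable_measure_prodMk_right meas_fail
  have h1 : ∀ K, ∫⁻ z, S {g | Fail g (back z (lst z.1 K))} ∂(windowLaw c κ) ≤ X := by
    intro K
    rw [lintegral_blist h.prob K hψ]
    have e1 : ∀ e, ∫⁻ b, S {g | Fail g b} ∂(comps (szs e K)) = failMass S (comps (szs e K)) :=
      fun e => (failMass_eq S _).symm
    simp_rw [e1]
    exact hX K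
  rw [failMass_eq]
  unfold BB
  rw [lintegral_map hψ (measurable_look 1)]
  have h3 : ∀ᵐ z ∂(windowLaw c κ), S {g | Fail g (look z 1)} ≤
      liminf (fun K => S {g | Fail g (back z (lst z.1 K))}) atTop := by
    filter_upwards [ae_look h] with z hz
    have e1 : {g | Fail g (look z 1)} = ⋃ Y, {g | FailN Y g (look z 1)} := by
      ext g
      simp only [Set.mem_ofPred_eq, Set.mem_iUnion]
      constructor
      · rintro ⟨x, y, h4, h5⟩; exact ⟨y + 1, x, y, by omega, h4, h5⟩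
      · rintro ⟨Y, x, y, _, h4, h5⟩; exact ⟨x, y, h4, h5⟩
    have hmono : Monotone fun Y => {g | FailN Y g (look z 1)} := by
      intro Y Y' hY g hg
      obtain ⟨x, y, hy, h4⟩ := hg
      exact ⟨x, y, by omega, h4⟩
    rw [e1, hmono.measure_iUnion]
    refine iSup_le fun Y => ?_
    refine le_liminf_of_le (by isBoundedDefault) ?_
    obtain ⟨K₀, hK₀⟩ := hz Y
    filter_upwards [eventually_ge_atTop K₀] with K hK
    refine measure_mono ?_
    intro g hg
    have h4 := failN_congr (fun x hx => hK₀ K hK x hx.le) hg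
    obtain ⟨x, y, _, h5, h6⟩ := h4
    exact ⟨x, y, h5, h6⟩
  refine (lintegral_mono_ae h3).trans ?_
  refine (lintegral_liminf_le fun K => hψ.comp (measurable_blist K)).trans ?_
  exact liminf_le_of_le (by isBoundedDefault) fun b hb => by
    obtain ⟨K, hK⟩ := hb.exists
    exact hK.trans (h1 K)

/-! ### The bound for one window -/

/-- The deficit: the time with at least two blocks among `M + 1` levels minus the time with at
least three blocks among `K + 1` levels. -/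
noncomputable def ZZ (S : Measure (ℕ → ℕ)) (K M : ℕ) (l : List ℝ) : ℝ≥0∞ :=
  S {g | 2 ≤ nb g (M + 1)} - YY S K l

theorem YY_le {S : Measure (ℕ → ℕ)} [SFinite S] {K M : ℕ} (hKM : K ≤ M) (l : List ℝ) :
    YY S K l ≤ S {g | 2 ≤ nb g (M + 1)} := by
  refine (cmp_nb_le (comps_nice l).seg 3 (K + 1)).trans (measure_mono fun g hg => ?_)
  have h1 : 3 ≤ nb g (K + 1) := hg
  have h2 := nb_mono g (show K + 1 ≤ M + 1 by omega)
  show 2 ≤ nb g (M + 1)
  omega

theorem pre_mdd {S : Measure (ℕ → ℕ)} [SFinite S] (hS : Nice S) {K M : ℕ} (hKM : K ≤ M)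
    (hfin : S {g | 2 ≤ nb g (M + 1)} ≠ ∞) (pre post : List ℝ) {m : ℕ} (hK : K ≤ m)
    (hM : m ≤ M) :
    (m : ℝ≥0∞) * dd (cmp S (comps pre)) m ≤ ZZ S K M (pre ++ post) := by
  unfold ZZ
  have hn : Nice (cmp S (comps pre)) := hS.cmp (comps_nice pre)
  refine ENNReal.le_sub_of_add_le_right
    (ne_top_of_le_ne_top hfin (YY_le hKM _)) ?_
  have h1 := mdd_add_le hn hK hM
  have h2 : YY S K (pre ++ post) ≤ cmp S (comps pre) {g | 3 ≤ nb g (K + 1)} := by
    unfold YY
    rw [comps_append, ← cmp_assoc]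
    exact cmp_nb_le (comps_nice post).seg 3 (K + 1)
  have h3 : cmp S (comps pre) {g | 2 ≤ nb g (M + 1)} ≤ S {g | 2 ≤ nb g (M + 1)} :=
    cmp_nb_le (comps_nice pre).seg 2 (M + 1)
  exact (add_le_add_right h2 _).trans (h1.trans h3)

theorem tb_comps {S : Measure (ℕ → ℕ)} [SFinite S] {q : ℝ≥0∞} (hS : TB S q) (l : List ℝ) :
    TB (cmp S (comps l)) q := hS.cmp (comps_nice l)

/-- The bound for the failures at the atoms of kind `k`. -/
noncomputable def phi (S : Measure (ℕ → ℕ)) (q : ℝ≥0∞) (sz : ℕ → ℝ) (KK MM : ℕ → ℕ)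
    (l : List ℝ) (k : ℕ) : ℝ≥0∞ :=
  if k % 2 = 1 then ENNReal.ofReal (sz k) * q⁻¹ else
    KK (k / 2) * ENNReal.ofReal (sz k) ^ 2 * q⁻¹ +
      ENNReal.ofReal (sz k) * min (ZZ S (KK (k / 2)) (MM (k / 2)) l) q⁻¹ +
      ENNReal.ofReal (sz k) * ENNReal.ofReal (1 - sz k) ^ (MM (k / 2) + 1) * q⁻¹

theorem sum_names {e : Env} {K : ℕ} (φ : ℕ → ℝ≥0∞) :
    ((lst e K).map fun a => φ a.1).sum ≤ ∑' k, (e.1 k : ℝ≥0∞) * φ k := by
  classical
  rw [← List.sum_toFinset _ (lst_nodup e K)]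
  have h1 : ∑ a ∈ (lst e K).toFinset, φ a.1 ≤
      ∑' a : Name, {a : Name | a.2 < e.1 a.1}.indicator (fun a => φ a.1) a := by
    refine le_trans (le_of_eq ?_) (ENNReal.sum_le_tsum (lst e K).toFinset)
    refine Finset.sum_congr rfl fun a ha => ?_
    rw [Set.indicator_of_mem]
    exact (mem_lst.1 (List.mem_toFinset.1 ha)).2
  refine h1.trans (le_of_eq ?_)
  rw [ENNReal.tsum_prod' (f := fun a : Name => {a : Name | a.2 < e.1 a.1}.indicator
    (fun a => φ a.1) a)]
  refine tsum_congr fun k => ?_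
  have h2 : ∀ j : ℕ, {a : Name | a.2 < e.1 a.1}.indicator (fun a : Name => φ a.1) (k, j) =
      if j ∈ Finset.range (e.1 k) then φ k else 0 := by
    intro j
    simp only [Set.indicator, Set.mem_ofPred_eq, Finset.mem_range]
  rw [tsum_congr h2, tsum_eq_sum (s := Finset.range (e.1 k)) (fun j hj => by rw [if_neg hj]),
    Finset.sum_congr rfl fun j hj => if_pos hj]
  simp

theorem window_fail {S : Measure (ℕ → ℕ)} [SFinite S] {q : ℝ≥0∞} (hS : Nice S) (hT : TB S q)
    (hq : q ≠ 0) (hq' : q ≠ ∞) {sz : ℕ → ℝ} (hsz : ∀ k, 0 ≤ sz k ∧ sz k ≤ 1) {KK MM : ℕ → ℕ}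
    (hKM : ∀ j, KK j ≤ MM j) (hfin : ∀ j, S {g | 2 ≤ nb g (MM j + 1)} ≠ ∞) {e : Env}
    (he : ∀ a, present e a → e.2.2 a = sz a.1) (K : ℕ) :
    failMass S (comps (szs e K)) ≤
      ∑' k, (e.1 k : ℝ≥0∞) * (if k < K then phi S q sz KK MM (szs e K) k else 0) := by
  refine le_trans ?_ (sum_names (K := K)
    (fun k => if k < K then phi S q sz KK MM (szs e K) k else 0))
  unfold szs
  refine comps_fail_names (fun a => e.2.2 a)
    (fun a => if a.1 < K then phi S q sz KK MM (szs e K) a.1 else 0) (lst e K)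
    fun pre a post heq => ?_
  have hmem := mem_lst.1 (show a ∈ lst e K by rw [heq]; simp)
  have ha : present e a := hmem.2
  rw [if_pos hmem.1]
  have hsa := he a ha
  have hl : szs e K = pre.map (fun a => e.2.2 a) ++ (a :: post).map fun a => e.2.2 a := by
    unfold szs
    rw [heq, List.map_append]
  simp only [hsa]
  have hT' : TB (cmp S (comps (pre.map fun a => e.2.2 a))) q := tb_comps hT _
  have hex : ExK (cmp S (comps (pre.map fun a => e.2.2 a))) := (hS.cmp (comps_nice _)).ex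
  unfold phi
  split_ifs with hodd
  · have h1 := atom_failMass hex hT' (hsz a.1).1 (hsz a.1).2
    rw [← div_eq_mul_inv, ENNReal.le_div_iff_mul_le (Or.inl hq) (Or.inl hq'), mul_comm]
    exact h1
  · refine atom_failMass_fine hex hT' (hsz a.1).1 (hsz a.1).2 fun m h1 h2 => ?_
    rw [hl]
    exact pre_mdd hS (hKM _) (hfin _) _ _ h1 h2

/-! ### Moments of the numbers of the atoms -/

theorem poisson_sq (r : ℝ≥0) : ∫⁻ n, (n : ℝ≥0∞) ^ 2 ∂(poissonMeasure r) = (r : ℝ≥0∞) ^ 2 + r := by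
  rw [lintegral_poisson, tsum_eq_zero_add' ENNReal.summable]
  simp only [Nat.cast_zero, ne_eq, OfNat.ofNat_ne_zero, not_false_eq_true, zero_pow, mul_zero,
    zero_add]
  have h1 : ∀ n : ℕ, ENNReal.ofReal (Real.exp (-r) * r ^ (n + 1) / (n + 1).factorial) *
      ((n + 1 : ℕ) : ℝ≥0∞) ^ 2 =
      r * (ENNReal.ofReal (Real.exp (-r) * r ^ n / n.factorial) * ((n : ℝ≥0∞) + 1)) := by
    intro n
    have e1 : ((n + 1 : ℕ) : ℝ≥0∞) = ENNReal.ofReal ((n : ℝ) + 1) := by
      rw [← ENNReal.ofReal_natCast]; push_cast; rfl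
    have e2 : (r : ℝ≥0∞) = ENNReal.ofReal (r : ℝ) := by rw [ENNReal.ofReal_coe_nnreal]
    have e3 : (n : ℝ≥0∞) + 1 = ENNReal.ofReal ((n : ℝ) + 1) := by
      rw [← e1]; push_cast; rfl
    rw [e1, e2, e3, ← ENNReal.ofReal_pow (by positivity), ← ENNReal.ofReal_mul (by positivity),
      ← ENNReal.ofReal_mul (by positivity), ← ENNReal.ofReal_mul (by positivity)]
    congr 1
    rw [Nat.factorial_succ]
    push_cast
    have : ((n : ℝ) + 1) ≠ 0 := by positivity
    field_simp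
    ring
  rw [tsum_congr h1, ENNReal.tsum_mul_left, ← lintegral_poisson r (fun n => (n : ℝ≥0∞) + 1),
    lintegral_add_right _ measurable_const, poisson_mean]
  simp
  ring

theorem lintegral_count (hκ : ∀ k, IsProbabilityMeasure (κ k)) (k : ℕ) (f : ℕ → ℝ≥0∞) :
    ∫⁻ e, f (e.1 k) ∂(envLaw c κ) = ∫⁻ n, f n ∂(poissonMeasure (c k)) := by
  have := hκ
  have e1 : (envLaw c κ).map (fun e : Env => e.1 k) = poissonMeasure (c k) := by
    unfold envLaw
    have e1 : (fun e : Env => e.1 k) = (fun x : ℕ → ℕ => x k) ∘ Prod.fst := rfl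
    rw [e1, ← Measure.map_map (measurable_pi_apply k) measurable_fst, Measure.map_fst_prod,
      measure_univ, one_smul, Measure.infinitePi_map_eval]
  rw [← e1, lintegral_map (measurable_of_countable f)
    ((measurable_pi_apply k).comp measurable_fst)]

theorem nat_le_add (n : ℕ) {t : ℝ≥0∞} (ht : t ≠ 0) (ht' : t ≠ ∞) :
    (n : ℝ≥0∞) ≤ t + (n : ℝ≥0∞) ^ 2 / t := by
  rcases le_total (n : ℝ≥0∞) t with h | h
  · exact h.trans le_self_add
  · refine le_trans ?_ le_add_self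
    rw [ENNReal.le_div_iff_mul_le (Or.inl ht) (Or.inl ht'), sq]
    gcongr

theorem count_mul_le (hκ : ∀ k, IsProbabilityMeasure (κ k)) (k : ℕ) {t B : ℝ≥0∞} (ht : t ≠ 0)
    (ht' : t ≠ ∞) {Z : Env → ℝ≥0∞} (hZ : Measurable Z) (hB : ∀ e, Z e ≤ B) :
    ∫⁻ e, (e.1 k : ℝ≥0∞) * Z e ∂(envLaw c κ) ≤
      t * ∫⁻ e, Z e ∂(envLaw c κ) + ((c k : ℝ≥0∞) ^ 2 + c k) / t * B := by
  have h1 : ∀ e : Env, (e.1 k : ℝ≥0∞) * Z e ≤ t * Z e + (e.1 k : ℝ≥0∞) ^ 2 / t * B := by
    intro e
    calc (e.1 k : ℝ≥0∞) * Z e ≤ (t + (e.1 k : ℝ≥0∞) ^ 2 / t) * Z e := by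
          gcongr
          exact nat_le_add _ ht ht'
      _ = t * Z e + (e.1 k : ℝ≥0∞) ^ 2 / t * Z e := add_mul _ _ _
      _ ≤ _ := by gcongr; exact hB e
  refine (lintegral_mono h1).trans ?_
  rw [lintegral_add_left (hZ.const_mul t), lintegral_const_mul _ hZ,
    lintegral_count hκ k (fun n => (n : ℝ≥0∞) ^ 2 / t * B)]
  gcongr
  have e1 : ∀ n : ℕ, (n : ℝ≥0∞) ^ 2 / t * B = (n : ℝ≥0∞) ^ 2 * (t⁻¹ * B) := by
    intro n; rw [div_eq_mul_inv, mul_assoc]
  simp_rw [e1]
  rw [lintegral_mul_const _ (measurable_of_countable _), poisson_sq, div_eq_mul_inv, mul_assoc]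

/-! ### Killing all the low levels -/

theorem atom_kill {u : ℝ} (h0 : 0 ≤ u) (h1 : u ≤ 1) (M : ℕ) :
    ENNReal.ofReal u ^ (M + 1) ≤ atom u {b | ∀ j ≤ M, b j = 0} := by
  classical
  unfold atom
  rw [Measure.map_apply (measurable_parts u) (meas_kill M)]
  have h2 := marks_cyl h0 h1 (M + 1) Set.univ
  simp only [Set.mem_univ, if_true, Finset.prod_const, Finset.card_range, iff_true] at h2
  rw [← h2]
  refine measure_mono ?_
  intro ξ hξ
  simp only [Set.mem_ofPred_eq] at hξ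
  show ∀ j ≤ M, shiftDown (parts u ξ) j = 0
  intro j hj
  have hs := shiftDown_seg (parts u ξ)
  have e0 : (0 : ℕ) ∈ parts u ξ := hξ 0 (by omega)
  have ej : j ∈ parts u ξ := hξ j (by omega)
  have h3 : shiftDown (parts u ξ) j = shiftDown (parts u ξ) 0 := by
    rw [shiftDown_eq_iff]
    exact Or.inr ⟨ej, e0⟩
  rw [h3, hs.zero]

theorem comps_kill (M : ℕ) {u : ℝ} {l : List ℝ} (hu : u ∈ l) :
    atom u {b | ∀ j ≤ M, b j = 0} ≤ comps l {b | ∀ j ≤ M, b j = 0} := by
  induction l with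
  | nil => simp at hu
  | cons v l ih =>
    simp only [comps]
    rw [cmp_apply _ _ (meas_kill M)]
    rcases List.mem_cons.1 hu with e | e
    · subst e
      calc atom u {b | ∀ j ≤ M, b j = 0} = ∫⁻ _, atom u {b | ∀ j ≤ M, b j = 0} ∂(comps l) := by
            simp
        _ ≤ _ := by
            refine lintegral_mono_ae ?_
            filter_upwards [(comps_nice l).seg] with b hb
            refine measure_mono fun g hg => ?_
            simp only [Set.mem_ofPred_eq] at hg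
            show ∀ j ≤ M, (g ∘ b) j = 0
            intro j hj
            exact hg (b j) (((hb.le_nb j).trans (hb.nb_le j)).trans hj)
    · refine (ih e).trans ?_
      rw [← lintegral_indicator_one (meas_kill M)]
      refine lintegral_mono fun b => ?_
      by_cases hb : ∀ j ≤ M, b j = 0
      · rw [Set.indicator_of_mem (show b ∈ {b : ℕ → ℕ | ∀ j ≤ M, b j = 0} from hb)]
        have h1 : atom v Set.univ ≤ atom v {g | g ∘ b ∈ {b : ℕ → ℕ | ∀ j ≤ M, b j = 0}} := by
          apply measure_mono_ae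
          filter_upwards [(nice_atom v).seg] with g hg _
          show ∀ j ≤ M, (g ∘ b) j = 0
          intro j hj
          simp only [Function.comp_apply, hb j hj, hg.zero]
        rw [measure_univ] at h1
        exact h1
      · rw [Set.indicator_of_notMem (show b ∉ {b : ℕ → ℕ | ∀ j ≤ M, b j = 0} from hb)]
        exact zero_le

theorem kill_BB (h : Hyp c κ) {E : Set Env} (hE : MeasurableSet E) {M : ℕ} {δ : ℝ≥0∞}
    (hδ : ∀ᵐ e ∂(envLaw c κ), e ∈ E →
      ∃ a, present e a ∧ δ ≤ atom (e.2.2 a) {b | ∀ j ≤ M, b j = 0}) :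
    envLaw c κ E * δ ≤ BB c κ {b | ∀ j ≤ M, b j = 0} := by
  have t := tendsto_BB h (f := {b : ℕ → ℕ | ∀ j ≤ M, b j = 0}.indicator 1) (M + 1) (by
      intro g g' hg
      have hiff : (∀ j ≤ M, g j = 0) ↔ ∀ j ≤ M, g' j = 0 :=
        forall₂_congr fun j hj => by rw [hg j (by omega)]
      by_cases hp : ∀ j ≤ M, g j = 0
      · rw [Set.indicator_of_mem (show g ∈ {b : ℕ → ℕ | ∀ j ≤ M, b j = 0} from hp),
          Set.indicator_of_mem (show g' ∈ {b : ℕ → ℕ | ∀ j ≤ M, b j = 0} from hiff.1 hp)]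
        rfl
      · rw [Set.indicator_of_notMem (show g ∉ {b : ℕ → ℕ | ∀ j ≤ M, b j = 0} from hp),
          Set.indicator_of_notMem
            (show g' ∉ {b : ℕ → ℕ | ∀ j ≤ M, b j = 0} from fun h' => hp (hiff.2 h'))])
      (fun g => Set.indicator_le_self' (by simp) g)
  rw [lintegral_indicator_one (meas_kill M)] at t
  have h1 : ∀ K, Measurable fun e : Env => ∫⁻ b, {b : ℕ → ℕ | ∀ j ≤ M, b j = 0}.indicator 1 b
      ∂(comps (szs e K)) := fun K =>
    measurable_comps_szs (measurable_one.indicator (meas_kill M)) K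
  calc envLaw c κ E * δ = ∫⁻ e, E.indicator (fun _ => δ) e ∂(envLaw c κ) := by
        rw [lintegral_indicator_const hE, mul_comm]
    _ ≤ ∫⁻ e, liminf (fun K => ∫⁻ b, {b : ℕ → ℕ | ∀ j ≤ M, b j = 0}.indicator 1 b
          ∂(comps (szs e K))) atTop ∂(envLaw c κ) := by
        refine lintegral_mono_ae ?_
        filter_upwards [hδ] with e he
        by_cases hmem : e ∈ E
        · rw [Set.indicator_of_mem hmem]
          obtain ⟨a, ha, hda⟩ := he hmem
          refine le_liminf_of_le (by isBoundedDefault) ?_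
          filter_upwards [eventually_gt_atTop a.1] with K hK
          rw [lintegral_indicator_one (meas_kill M)]
          refine hda.trans (comps_kill M ?_)
          exact List.mem_map.2 ⟨a, mem_lst.2 ⟨hK, ha⟩, rfl⟩
        · rw [Set.indicator_of_notMem hmem]; exact zero_le
    _ ≤ liminf (fun K => ∫⁻ e, ∫⁻ b, {b : ℕ → ℕ | ∀ j ≤ M, b j = 0}.indicator 1 b
          ∂(comps (szs e K)) ∂(envLaw c κ)) atTop := lintegral_liminf_le h1
    _ = _ := t.liminf_eq

/-! ### The deficit on the good event -/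

theorem ZZ_add (S : Measure (ℕ → ℕ)) [SFinite S] {K M : ℕ} (hKM : K ≤ M) (l : List ℝ) :
    ZZ S K M l + YY S K l = S {g | 2 ≤ nb g (M + 1)} := by
  unfold ZZ
  exact tsub_add_cancel_of_le (YY_le hKM l)

theorem measurable_ZZ (S : Measure (ℕ → ℕ)) [SFinite S] (K M K' : ℕ) :
    Measurable fun e : Env => ZZ S K M (szs e K') :=
  measurable_const.sub (measurable_YY S K K')

theorem ZZ_good (h : Hyp c κ) {J K' : ℕ} (hK : J ≤ K') {G : Set Env} {θ : ℝ}
    (hGθ : ∀ᵐ e ∂(envLaw c κ), e ∈ G → ∀ a, present e a → J ≤ a.1 → e.2.2 a ≤ θ)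
    (hG : MeasurableSet G) {K M : ℕ} (hKM : K ≤ M) (N : ℕ) :
    ∫⁻ e in G, ZZ (Measure.sum (iter (BB c κ))) K M (szs e K') ∂(envLaw c κ) +
      ∑ n ∈ Finset.range N, (envLaw c κ G) ^ (n + 1) ≤
      (BB c κ {b | ∀ j ≤ M, b j = 0})⁻¹ * envLaw c κ G +
      ∑ n ∈ Finset.range N, (iter (BB (cc c J) (kk κ J)) (n + 1) {g | nb g (K + 1) ≤ 2} +
        (n + 1 : ℕ) * (((K + 1 : ℕ) : ℝ≥0∞) ^ 2 * ∫⁻ u, hth θ u ∂(nu c κ))) := by
  have := prob_envLaw (c := c) h.prob
  have := prob_BB (c := c) h.prob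
  have h1 := low_YY h hK hGθ hG K N
  have h2 : ∫⁻ e in G, ZZ (Measure.sum (iter (BB c κ))) K M (szs e K') ∂(envLaw c κ) +
      ∫⁻ e in G, YY (Measure.sum (iter (BB c κ))) K (szs e K') ∂(envLaw c κ) ≤
      (BB c κ {b | ∀ j ≤ M, b j = 0})⁻¹ * envLaw c κ G := by
    rw [← lintegral_add_left (measurable_ZZ _ K M K')]
    simp_rw [ZZ_add _ hKM]
    rw [lintegral_const, Measure.restrict_apply_univ]
    gcongr
    exact sum_kill (nice_BB h) M
  refine (add_le_add_right h1 _).trans ?_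
  rw [← add_assoc]
  gcongr

end Pool.Agent.Helper97.LD
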